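import Pool.Agent.K7.H3.ZB.Geom
import Pool.Agent.K7.H3.ZR.Ultra

/-!
# The theorem of Bertini and Noether
-/

set_option autoImplicit false

open Polynomial

namespace Pool.Agent.K7.H3.ZB

open Pool.Agent.K7.H3.ZR (UP upMap)

variable {k K : Type} [Field k] [Field K] [Algebra k K]

theorem coeff_coeff_swap {R : Type} [CommRing R] (p : R[X][X]) (i j : ℕ) :
    ((Bivariate.swap p).coeff j).coeff i = (p.coeff i).coeff j := by
  induction p using Polynomial.induction_on' with
  | add p q hp hq => rw [map_add, coeff_add, coeff_add, hp, hq, coeff_add, coeff_add]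
  | monomial n f =>
    induction f using Polynomial.induction_on' with
    | add f g hf hg =>
      rw [map_add, map_add, coeff_add, coeff_add, hf, hg, coeff_add, coeff_add]
    | monomial m a =>
      rw [Bivariate.swap_monomial_monomial, coeff_monomial, coeff_monomial]
      by_cases h1 : m = j
      · by_cases h2 : n = i
        · rw [if_pos h1, if_pos h2, coeff_monomial, coeff_monomial, if_pos h1, if_pos h2]
        · rw [if_pos h1, if_neg h2, coeff_monomial, if_neg h2, coeff_zero]
      · by_cases h2 : n = i
        · rw [if_neg h1, if_pos h2, coeff_zero, coeff_monomial, if_neg h1]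
        · rw [if_neg h1, if_neg h2, coeff_zero, coeff_zero]

theorem natDegree_swap_le {R : Type} [CommRing R] {p : R[X][X]} {N : ℕ} :
    (Bivariate.swap p).natDegree ≤ N ↔ ∀ i, (p.coeff i).natDegree ≤ N := by
  constructor
  · intro h i
    rw [natDegree_le_iff_coeff_eq_zero]
    intro m hm
    rw [← coeff_coeff_swap, coeff_eq_zero_of_natDegree_lt (p := Bivariate.swap p) (by omega),
      coeff_zero]
  · intro h
    rw [natDegree_le_iff_coeff_eq_zero]
    intro m hm
    ext i
    rw [coeff_coeff_swap, coeff_eq_zero_of_natDegree_lt (by have := h i; omega), coeff_zero]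

/-- The degrees of the coefficients of the factors of a product. -/
theorem ydeg_bound {f g : k[X][X]} (hf : f ≠ 0) (hg : g ≠ 0) {N : ℕ}
    (h : ∀ i, ((f * g).coeff i).natDegree ≤ N) (i : ℕ) : (f.coeff i).natDegree ≤ N := by
  revert i
  rw [← natDegree_swap_le] at h ⊢
  have h1 : Bivariate.swap f ≠ 0 := (EmbeddingLike.map_ne_zero_iff (f := Bivariate.swap (R := k))).2 hf
  have h2 : Bivariate.swap g ≠ 0 := (EmbeddingLike.map_ne_zero_iff (f := Bivariate.swap (R := k))).2 hg
  rw [map_mul, natDegree_mul h1 h2] at h
  omega

section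

variable {Λ : Type}

/-- A family of polynomials of bounded degrees as one polynomial. -/
noncomputable def assemble (n N : ℕ) (A : Λ → k[X][X]) : (Λ → k)[X][X] :=
  ∑ i ∈ Finset.range n, ∑ j ∈ Finset.range (N + 1),
    monomial i (monomial j (fun t => ((A t).coeff i).coeff j))

/-- The evaluation at one index. -/
noncomputable def at' (k : Type) [Field k] {Λ : Type} (t : Λ) : (Λ → k)[X] →+* k[X] :=
  mapRingHom (Pi.evalRingHom (fun _ : Λ => k) t)

theorem at_ext {p q : (Λ → k)[X][X]} (h : ∀ t, p.map (at' k t) = q.map (at' k t)) : p = q := by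
  ext i j t
  have h1 := congrArg (fun f : k[X][X] => (f.coeff i).coeff j) (h t)
  simp only [coeff_map, at', coe_mapRingHom] at h1
  exact h1

theorem assemble_at {n N : ℕ} {A : Λ → k[X][X]} {t : Λ} (hn : (A t).natDegree < n)
    (hN : ∀ i, ((A t).coeff i).natDegree ≤ N) : (assemble n N A).map (at' k t) = A t := by
  ext i j
  rw [assemble, Polynomial.map_sum, finsetSum_coeff, finsetSum_coeff]
  simp only [Polynomial.map_sum, map_monomial, at', coe_mapRingHom, finsetSum_coeff]
  by_cases hi : i < n
  · rw [Finset.sum_eq_single i]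
    · by_cases hj : j ≤ N
      · rw [Finset.sum_eq_single j]
        · rw [coeff_monomial_same, coeff_monomial_same]
          rfl
        · intro j' _ hne
          rw [coeff_monomial_same, coeff_monomial_of_ne _ hne.symm]
        · intro h
          exact absurd (Finset.mem_range.2 (by omega)) h
      · rw [Finset.sum_eq_zero, coeff_eq_zero_of_natDegree_lt (by have := hN i; omega)]
        intro j' hj'
        have h1 := Finset.mem_range.1 hj'
        rw [coeff_monomial_same, coeff_monomial_of_ne _ (by omega)]
    · intro i' _ hne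
      refine Finset.sum_eq_zero fun j' _ => ?_
      rw [coeff_monomial_of_ne _ hne.symm, coeff_zero]
    · intro h
      exact absurd (Finset.mem_range.2 hi) h
  · rw [Finset.sum_eq_zero, coeff_eq_zero_of_natDegree_lt (p := A t) (by omega), coeff_zero]
    intro i' hi'
    have h1 := Finset.mem_range.1 hi'
    refine Finset.sum_eq_zero fun j' _ => ?_
    rw [coeff_monomial_of_ne _ (by omega), coeff_zero]

end

/-- The specialisation `w = t`. -/
noncomputable def sp (t : k) : k[X][X] →+* k[X] := mapRingHom (evalRingHom t)

/-- **The theorem of Bertini and Noether**: almost all specialisations are irreducible. -/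
theorem finite_reducible [CharZero k] {w y z : K}
    (hw : Function.Injective (aeval w : k[X] →ₐ[k] K))
    {P : Polynomial k[X][X]} (hP : P.Monic) (hPz : P.eval₂ (ev2 k w y) z = 0)
    (hmin : ∀ Q : Polynomial k[X][X], Q.eval₂ (ev2 k w y) z = 0 → P ∣ Q)
    (hreg : ∀ β : K, (∃ m : k[X][X], m.Monic ∧
      m.eval₂ (aeval w : k[X] →ₐ[k] K).toRingHom β = 0) → ∃ p : k[X], aeval w p = β) :
    Set.Finite {t : k | ¬ Irreducible (P.map (sp t))} := by
  classical
  by_contra hinf
  let Λ : Type := {t : k | ¬ Irreducible (P.map (sp t))}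
  have hΛ : Infinite Λ := Set.infinite_coe_iff.2 hinf
  let U : Ultrafilter Λ := Filter.hyperfilter Λ
  have hn : 0 < P.natDegree := by
    rw [Nat.pos_iff_ne_zero]
    intro h0
    have h2 := hP.natDegree_eq_zero.1 h0
    rw [h2, eval₂_one] at hPz
    exact one_ne_zero hPz
  -- the factors
  have hfac : ∀ t : Λ, ∃ A B : k[X][X], A.Monic ∧ B.Monic ∧ A * B = P.map (sp t.1) ∧
      A.natDegree < P.natDegree ∧ B.natDegree < P.natDegree := by
    intro t
    have h1 : ¬ Irreducible (P.map (sp t.1)) := t.2
    have h2 : (P.map (sp t.1)).Monic := hP.map _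
    have h3 : (P.map (sp t.1)).natDegree = P.natDegree := hP.natDegree_map _
    rw [h2.irreducible_iff_natDegree, not_and_or] at h1
    rcases h1 with h1 | h1
    · rw [not_not] at h1
      rw [h1, natDegree_one] at h3
      omega
    · push Not at h1
      obtain ⟨A, B, hA, hB, hAB, hA0, hB0⟩ := h1
      have h4 := hA.natDegree_mul hB
      rw [hAB, h3] at h4
      exact ⟨A, B, hA, hB, hAB, by omega, by omega⟩
  choose A B hA hB hAB hAn hBn using hfac
  obtain ⟨N, hN⟩ : ∃ N : ℕ, ∀ i, (P.coeff i).natDegree ≤ N := by
    refine ⟨P.support.sup fun i => (P.coeff i).natDegree, fun i => ?_⟩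
    by_cases hi : i ∈ P.support
    · exact Finset.le_sup (f := fun i => (P.coeff i).natDegree) hi
    · rw [notMem_support_iff.1 hi, natDegree_zero]
      exact Nat.zero_le _
  have hNt : ∀ (t : k) i, ((P.map (sp t)).coeff i).natDegree ≤ N := by
    intro t i
    rw [coeff_map]
    exact natDegree_map_le.trans (hN i)
  have hAN : ∀ (t : Λ) i, ((A t).coeff i).natDegree ≤ N := fun t =>
    ydeg_bound (hA t).ne_zero (hB t).ne_zero (fun i => by rw [hAB]; exact hNt _ i)
  have hBN : ∀ (t : Λ) i, ((B t).coeff i).natDegree ≤ N := fun t =>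
    ydeg_bound (hB t).ne_zero (hA t).ne_zero (fun i => by rw [mul_comm, hAB]; exact hNt _ i)
  -- the product
  let ε : k[X] →+* (Λ → k) := RingHom.pi fun t : Λ => evalRingHom t.1
  have hprod : P.map (mapRingHom ε) = assemble P.natDegree N A * assemble P.natDegree N B := by
    apply at_ext
    intro t
    rw [Polynomial.map_mul, assemble_at (hAn t) (hAN t), assemble_at (hBn t) (hBN t), hAB,
      Polynomial.map_map]
    congr 1
    rw [at', mapRingHom_comp]
    rfl
  -- the ultrapower
  let φ : k[X] →+* UP k U := (upMap k U).comp ε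
  have hφ : Function.Injective φ := by
    rw [injective_iff_map_eq_zero]
    intro p hp
    by_contra hp0
    have h1 : ∀ᶠ t in (U : Filter Λ), p.eval t.1 = 0 := (ZR.upHom_eq_zero U).1 hp
    have h2 : Set.Finite {t : Λ | p.eval t.1 = 0} := by
      refine Set.Finite.subset ((p.roots.toFinset.finite_toSet).preimage
        (Subtype.val_injective.injOn : Set.InjOn (Subtype.val : Λ → k) _)) ?_
      intro t ht
      rw [Set.mem_preimage, Finset.mem_coe, Multiset.mem_toFinset, mem_roots hp0]
      exact ht
    exact Filter.notMem_hyperfilter_of_finite h2 h1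
  have hirr := irreducible_map hw hP hPz hmin hreg φ hφ
  have hprod' : P.map (mapRingHom φ) = (assemble P.natDegree N A).map (mapRingHom (upMap k U)) *
      (assemble P.natDegree N B).map (mapRingHom (upMap k U)) := by
    rw [← Polynomial.map_mul, ← hprod, Polynomial.map_map, mapRingHom_comp]
  have hdeg : ∀ A : Λ → k[X][X],
      ((assemble P.natDegree N A).map (mapRingHom (upMap k U))).natDegree < P.natDegree := by
    intro A
    refine lt_of_le_of_lt natDegree_map_le ?_
    refine lt_of_le_of_lt (b := P.natDegree - 1) ?_ (by omega)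
    refine natDegree_sum_le_of_forall_le _ _ fun i hi => ?_
    refine natDegree_sum_le_of_forall_le _ _ fun j _ => ?_
    have h1 := Finset.mem_range.1 hi
    exact (natDegree_monomial_le _).trans (by omega)
  have hm : (P.map (mapRingHom φ)).natDegree = P.natDegree := hP.natDegree_map _
  have hne : P.map (mapRingHom φ) ≠ 0 := (hP.map _).ne_zero
  rw [hprod'] at hm hne
  rw [natDegree_mul (left_ne_zero_of_mul hne) (right_ne_zero_of_mul hne)] at hm
  have h1 := hdeg A
  have h2 := hdeg B
  rcases hirr.isUnit_or_isUnit hprod' with h | h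
  · have h3 := natDegree_eq_zero_of_isUnit h
    omega
  · have h3 := natDegree_eq_zero_of_isUnit h
    omega

end Pool.Agent.K7.H3.ZB
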