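import Pool.Agent.K7.H3.ZB.Prim2

/-!
# Irreducible plane sections
-/

set_option autoImplicit false

open MvPolynomial
open scoped LinearAlgebra.Projectivization

namespace Pool.Agent.K7.H3.ZB

open Pool.Agent.K7.H3.ZN (VarData)
open Pool.Agent.K7.H3.ZC (IsVariety Spz rk rk_mono rk_le_of_isAlgebraic isAlgebraic_mem tt coe_tt
  ES tt_univ spz_one aeval_rep_eq_zero)

variable {k : Type} [Field k] {r : ℕ}

/-- Normalised coordinates of the generic point of a surface with respect to a projection. -/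
theorem exists_normal [IsAlgClosed k] {X : Set (ℙ k (Fin (r + 1) → k))} {K : Type} [Field K]
    [Algebra k K] {θ : Fin 1 → Fin (r + 1) → K} (hX : VarData k X K θ 2) (hθ : θ 0 ≠ 0) :
    ∃ (L : Fin 3 → Fin (r + 1) → k) (l : K), l ≠ 0 ∧
      (∀ v : Fin (r + 1) → k, v ≠ 0 → Spz k θ (fun _ : Fin 1 => v) →
        ∃ i, aeval v (linP (L i)) ≠ 0) ∧
      aeval (fun j => l * θ 0 j) (linP (L 0)) = 1 ∧
      (∀ j, IsIntegral (Algebra.adjoin k (Set.range fun i =>
        aeval (fun j => l * θ 0 j) (linP (L i)))) (l * θ 0 j)) ∧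
      2 ≤ rk k ({aeval (fun j => l * θ 0 j) (linP (L 1)),
        aeval (fun j => l * θ 0 j) (linP (L 2))} : Set K) := by
  classical
  obtain ⟨L, hL⟩ := exists_projection hX
  have hLv : ∀ v : Fin (r + 1) → k, v ≠ 0 → Spz k θ (fun _ : Fin 1 => v) →
      ∃ i, aeval v (linP (L i)) ≠ 0 := by
    intro v hv hs
    obtain ⟨i, hi⟩ := hL (Projectivization.mk k v hv) ((hX.mem _).2 (hs.rep fun _ => hv))
    refine ⟨i, fun h0 => hi ?_⟩
    exact (aeval_rep_eq_zero (linP_homogeneous (L i)) hv).2 h0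
  obtain ⟨b, hb⟩ := Function.ne_iff.1 hθ
  have hb' : θ 0 b ≠ 0 := hb
  -- the rank
  have hrank : ∀ (l : K) (S : Set K), l ≠ 0 → (∀ j, IsAlgebraic (Algebra.adjoin k S) (l * θ 0 j)) →
      2 ≤ rk k S := by
    intro l S hl hS
    have h1 := tt_univ (b := fun _ => b) hX.gen hX.tr (fun i => by
      rw [Subsingleton.elim i 0]
      exact hb')
    have h2 : rk k (ES (fun _ => b) θ Finset.univ) = 2 := by
      rw [← coe_tt, h1]
      rfl
    rw [← h2]
    apply rk_le_of_isAlgebraic
    rintro x ⟨i, -, j, rfl⟩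
    rw [Subsingleton.elim i 0]
    have h3 : θ 0 j / θ 0 b = (l * θ 0 j) * (l * θ 0 b)⁻¹ := by
      field_simp
    rw [h3]
    exact (hS j).mul (hS b).inv
  have hspz : ∀ l : K, Spz k θ (fun _ : Fin 1 => fun j => l * θ 0 j) := by
    intro l
    rw [spz_one]
    intro G d hG h0
    rw [aeval_mul_hom hG, h0, mul_zero]
  have hne : ∀ l : K, l ≠ 0 → (fun j => l * θ 0 j) ≠ 0 := by
    intro l hl h0
    exact mul_ne_zero hl hb' (congrFun h0 b)
  -- a form which does not vanish
  obtain ⟨a, ha⟩ : ∃ a, aeval (θ 0) (linP (L a)) ≠ 0 := by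
    by_contra hcon
    push Not at hcon
    have h1 : ∀ j, IsAlgebraic (Algebra.adjoin k
        (Set.range fun i => aeval (fun j => (1 : K) * θ 0 j) (linP (L i)))) ((1 : K) * θ 0 j) :=
      fun j => (integral_of_spz hLv (hne 1 one_ne_zero) (hspz 1) j).isAlgebraic
    have h2 := hrank 1 _ one_ne_zero h1
    have h3 : rk k (Set.range fun i => aeval (fun j => (1 : K) * θ 0 j) (linP (L i))) ≤
        rk k (∅ : Set K) := by
      apply rk_le_of_isAlgebraic
      rintro x ⟨i, rfl⟩
      have h4 : aeval (fun j => (1 : K) * θ 0 j) (linP (L i)) = 0 := by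
        rw [aeval_mul_hom (linP_homogeneous (L i)), hcon, mul_zero]
      change IsAlgebraic _ (aeval (fun j => (1 : K) * θ 0 j) (linP (L i)))
      rw [h4]
      exact isAlgebraic_zero
    have h4 : rk k (∅ : Set K) ≤ 0 := by
      refine ((AlgebraicIndependent.matroid k K).eRk_le_encard ∅).trans ?_
      rw [Set.encard_empty]
    have h5 := (h2.trans h3).trans h4
    norm_num at h5
  -- the permutation
  let L' : Fin 3 → Fin (r + 1) → k := fun i => L (Equiv.swap 0 a i)
  have hL0 : L' 0 = L a := by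
    change L (Equiv.swap 0 a 0) = L a
    rw [Equiv.swap_apply_left]
  have hLv' : ∀ v : Fin (r + 1) → k, v ≠ 0 → Spz k θ (fun _ : Fin 1 => v) →
      ∃ i, aeval v (linP (L' i)) ≠ 0 := by
    intro v hv hs
    obtain ⟨i, hi⟩ := hLv v hv hs
    refine ⟨Equiv.swap 0 a i, ?_⟩
    change aeval v (linP (L (Equiv.swap 0 a (Equiv.swap 0 a i)))) ≠ 0
    rw [Equiv.swap_apply_self]
    exact hi
  have hl : (aeval (θ 0) (linP (L' 0)))⁻¹ ≠ 0 := by
    rw [hL0]
    exact inv_ne_zero ha
  have h1 : aeval (fun j => (aeval (θ 0) (linP (L' 0)))⁻¹ * θ 0 j) (linP (L' 0)) = 1 := by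
    rw [aeval_mul_hom (linP_homogeneous (L' 0)), pow_one, inv_mul_cancel₀]
    rw [hL0]
    exact ha
  have hint := integral_of_spz hLv' (hne _ hl) (hspz _)
  refine ⟨L', _, hl, hLv', h1, hint, ?_⟩
  refine hrank _ _ hl fun j => ?_
  have h2 := (hint j).isAlgebraic
  have h3 : Algebra.adjoin k (Set.range fun i =>
      aeval (fun j => (aeval (θ 0) (linP (L' 0)))⁻¹ * θ 0 j) (linP (L' i))) =
      Algebra.adjoin k ({aeval (fun j => (aeval (θ 0) (linP (L' 0)))⁻¹ * θ 0 j) (linP (L' 1)),
        aeval (fun j => (aeval (θ 0) (linP (L' 0)))⁻¹ * θ 0 j) (linP (L' 2))} : Set K) := by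
    apply le_antisymm
    · apply Algebra.adjoin_le
      rintro x ⟨i, rfl⟩
      fin_cases i
      · change aeval _ (linP (L' 0)) ∈ _
        rw [h1]
        exact one_mem _
      · exact Algebra.subset_adjoin (Or.inl rfl)
      · exact Algebra.subset_adjoin (Or.inr rfl)
    · apply Algebra.adjoin_mono
      rintro x (rfl | rfl)
      · exact ⟨1, rfl⟩
      · exact ⟨2, rfl⟩
  rw [h3] at h2
  exact h2

theorem finite_sp_eq_zero {D : Polynomial (Polynomial k)} (hD : D ≠ 0) :
    Set.Finite {t : k | sp t D = 0} := by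
  classical
  have h1 : D.leadingCoeff ≠ 0 := Polynomial.leadingCoeff_ne_zero.2 hD
  refine Set.Finite.subset (D.leadingCoeff.roots.toFinset.finite_toSet) ?_
  intro a ha
  rw [Finset.mem_coe, Multiset.mem_toFinset, Polynomial.mem_roots h1]
  have h2 := congrArg (fun P : Polynomial k => P.coeff D.natDegree) ha
  simp only [sp, Polynomial.coe_mapRingHom, Polynomial.coeff_map, Polynomial.coeff_zero] at h2
  exact h2

/-- The minimal polynomial over the polynomials in `w` and `y`. -/
theorem exists_minpoly {K : Type} [Field K] [Algebra k K] {w y z : K}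
    (hwy : Function.Injective (ev2 k w y))
    (hz : ∃ m : Polynomial (Polynomial (Polynomial k)), m.Monic ∧ m.eval₂ (ev2 k w y) z = 0) :
    ∃ P : Polynomial (Polynomial (Polynomial k)), P.Monic ∧ P.eval₂ (ev2 k w y) z = 0 ∧
      ∀ Q : Polynomial (Polynomial (Polynomial k)), Q.eval₂ (ev2 k w y) z = 0 → P ∣ Q := by
  let : Algebra (Polynomial (Polynomial k)) K := (ev2 k w y).toAlgebra
  have hf : FaithfulSMul (Polynomial (Polynomial k)) K :=
    (faithfulSMul_iff_algebraMap_injective _ _).2 hwy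
  have hz' : IsIntegral (Polynomial (Polynomial k)) z := hz
  refine ⟨minpoly (Polynomial (Polynomial k)) z, minpoly.monic hz',
    minpoly.aeval (Polynomial (Polynomial k)) z, fun Q hQ => ?_⟩
  exact minpoly.isIntegrallyClosed_dvd hz' hQ

/-- **Bertini's theorem**: each irreducible surface has an irreducible plane section. -/
theorem exists_irreducible_section [IsAlgClosed k] [CharZero k]
    {X : Set (ℙ k (Fin (r + 1) → k))}
    (hX : IsVariety k {z : Fin 1 → ℙ k (Fin (r + 1) → k) | z 0 ∈ X} 2) :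
    ∃ h : MvPolynomial (Fin (r + 1)) k, h.IsHomogeneous 1 ∧
      IsVariety k {z : Fin 1 → ℙ k (Fin (r + 1) → k) | z 0 ∈ X ∧ aeval (z 0).rep h = 0} 1 := by
  classical
  obtain ⟨K, _, _, θ, hθ, hgen, htr, hXθ⟩ := hX
  have hV : VarData k X K θ 2 := ⟨hgen, htr, fun x => hXθ (fun _ => x)⟩
  have : Infinite k := IsAlgClosed.instInfinite
  have : CharZero K := charZero_of_injective_algebraMap (algebraMap k K).injective
  obtain ⟨L, l, hl, hLv, hL0, hint, hrk⟩ := exists_normal hV (hθ 0)
  obtain ⟨ξ, hξ⟩ : ∃ ξ : Fin (r + 1) → K, ξ = fun j => l * θ 0 j := ⟨_, rfl⟩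
  rw [← hξ] at hL0 hrk
  obtain ⟨u, hu⟩ : ∃ u, u = aeval ξ (linP (L 1)) := ⟨_, rfl⟩
  obtain ⟨v, hv⟩ : ∃ v, v = aeval ξ (linP (L 2)) := ⟨_, rfl⟩
  rw [← hu, ← hv] at hrk
  have hξj : ∀ j, ξ j = l * θ 0 j := fun j => by rw [hξ]
  -- forms at the generic point
  have hform : ∀ {G : MvPolynomial (Fin (r + 1)) k} {d : ℕ}, G.IsHomogeneous d →
      (aeval (θ 0) G = 0 ↔ aeval ξ G = 0) := by
    intro G d hG
    rw [hξ, aeval_mul_hom hG, mul_eq_zero, or_iff_right (pow_ne_zero _ hl)]
  have hgenξ : IntermediateField.adjoin k {x | ∃ j l, x = ξ j / ξ l} = ⊤ := by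
    rw [← hgen]
    congr 1
    ext x
    constructor
    · rintro ⟨j, m, rfl⟩
      refine ⟨0, j, m, ?_⟩
      rw [hξj, hξj, mul_div_mul_left _ _ hl]
    · rintro ⟨i, j, m, rfl⟩
      refine ⟨j, m, ?_⟩
      rw [hξj, hξj, mul_div_mul_left _ _ hl, Subsingleton.elim i 0]
  -- the values of the forms
  have hrange : ∀ (S : Subalgebra k K), u ∈ S → v ∈ S →
      Algebra.adjoin k (Set.range fun i => aeval ξ (linP (L i))) ≤ S := by
    intro S hS1 hS2
    apply Algebra.adjoin_le
    rintro x ⟨i, rfl⟩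
    fin_cases i
    · change aeval ξ (linP (L 0)) ∈ S
      rw [hL0]
      exact one_mem _
    · change aeval ξ (linP (L 1)) ∈ S
      rw [← hu]
      exact hS1
    · change aeval ξ (linP (L 2)) ∈ S
      rw [← hv]
      exact hS2
  have hint' : ∀ j, IsIntegral (Algebra.adjoin k (Set.range fun i => aeval ξ (linP (L i))))
      (ξ j) := by
    intro j
    rw [hξ]
    exact hint j
  have halg : ∀ (S : Set K), u ∈ Algebra.adjoin k S → v ∈ Algebra.adjoin k S →
      ∀ j, IsAlgebraic (Algebra.adjoin k S) (ξ j) := by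
    intro S hS1 hS2 j
    obtain ⟨p, hp, hp0⟩ := hint' j
    refine IsIntegral.isAlgebraic ⟨p.map (Subalgebra.inclusion (hrange _ hS1 hS2)).toRingHom,
      hp.map _, ?_⟩
    rw [Polynomial.eval₂_map]
    exact hp0
  have hfin1 : FiniteDimensional (IntermediateField.adjoin k {u, v}) K :=
    finite_of_gen hgenξ (halg _ (Algebra.subset_adjoin (Or.inl rfl))
      (Algebra.subset_adjoin (Or.inr rfl)))
  obtain ⟨c, hc⟩ := exists_regular hrk
  obtain ⟨w, hw⟩ : ∃ w, w = u + algebraMap k K c * v := ⟨_, rfl⟩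
  have hwinj := injective_aeval hrk c
  have hwy := injective_ev2 hrk c
  rw [← hw] at hwinj hwy
  have hreg : ∀ β : K, (∃ m : Polynomial (Polynomial k), m.Monic ∧
      m.eval₂ (Polynomial.aeval w : Polynomial k →ₐ[k] K).toRingHom β = 0) →
        ∃ p : Polynomial k, Polynomial.aeval w p = β := by
    intro β hβ
    apply mem_poly_of_integral hwinj hβ
    obtain ⟨m, hm, hm0⟩ := hβ
    rw [hw] at hm0 ⊢
    exact hc β ⟨m, hm.ne_zero, hm0⟩
  -- the primitive element
  have huwv : u ∈ Algebra.adjoin k {w, v} := by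
    have h1 : u = w - algebraMap k K c * v := by
      rw [hw]
      ring
    rw [h1]
    exact sub_mem (Algebra.subset_adjoin (Or.inl rfl)) (mul_mem (Subalgebra.algebraMap_mem _ c)
      (Algebra.subset_adjoin (Or.inr rfl)))
  obtain ⟨E, hE⟩ : ∃ E : IntermediateField k K, E = IntermediateField.adjoin k {w, v} := ⟨_, rfl⟩
  have hfin2 : FiniteDimensional E K := by
    rw [hE]
    exact finite_of_gen hgenξ (halg _ huwv (Algebra.subset_adjoin (Or.inr rfl)))
  obtain ⟨e, he⟩ := exists_primitive_lin hgenξ E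
  obtain ⟨z, hz⟩ : ∃ z, z = aeval ξ (linP e) := ⟨_, rfl⟩
  rw [← hz] at he
  obtain ⟨D, Q, hD, hQ⟩ := common_denom (ξ := ξ) fun j => clear_denoms E hE he (ξ j)
  -- the minimal polynomial
  have hevmem : ∀ a ∈ Algebra.adjoin k (Set.range fun i => aeval ξ (linP (L i))),
      ∃ F, ev2 k w v F = a := by
    intro a ha
    have hS : ∀ a ∈ (ev2 k w v).range, ∃ F, ev2 k w v F = a := fun a ha => ha
    apply hS
    induction ha using Algebra.adjoin_induction with
    | mem x hx =>
      obtain ⟨i, rfl⟩ := hx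
      fin_cases i
      · change aeval ξ (linP (L 0)) ∈ _
        rw [hL0]
        exact one_mem _
      · change aeval ξ (linP (L 1)) ∈ _
        rw [← hu]
        refine ⟨Polynomial.C Polynomial.X - Polynomial.C (Polynomial.C c) * Polynomial.X, ?_⟩
        have h1 : u = w - algebraMap k K c * v := by
          rw [hw]
          ring
        rw [h1]
        simp [ev2]
      · change aeval ξ (linP (L 2)) ∈ _
        rw [← hv]
        exact ⟨Polynomial.X, by simp [ev2]⟩
    | algebraMap c => exact ⟨Polynomial.C (Polynomial.C c), by simp [ev2]⟩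
    | add x y _ _ hx hy => exact add_mem hx hy
    | mul x y _ _ hx hy => exact mul_mem hx hy
  have hzint : IsIntegral (Algebra.adjoin k (Set.range fun i => aeval ξ (linP (L i)))) z := by
    rw [hz, aeval_linP]
    refine IsIntegral.sum _ fun j _ => ?_
    exact (isIntegral_algebraMap (R := Algebra.adjoin k (Set.range fun i =>
      aeval ξ (linP (L i)))) (x := algebraMap k _ (e j))).mul (hint' j)
  obtain ⟨P, hP, hPz, hmin⟩ := exists_minpoly hwy (integral_ev2 hevmem hzint)
  -- the parameter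
  have hred := finite_reducible hwinj hP hPz hmin hreg
  have hD0 : D ≠ 0 := by
    intro h0
    apply hD
    rw [h0, map_zero]
  obtain ⟨t, ht⟩ := ((hred.union (finite_sp_eq_zero hD0)).infinite_compl).nonempty
  rw [Set.mem_compl_iff, Set.mem_union, not_or] at ht
  have hirr : Irreducible (P.map (sp t)) := not_not.1 ht.1
  have hDt : sp t D ≠ 0 := ht.2
  -- the forms
  obtain ⟨l1, hl1⟩ : ∃ l1 : Fin (r + 1) → k, l1 = fun j => L 1 j + c * L 2 j := ⟨_, rfl⟩
  have hl1v : ∀ {A : Type} [CommRing A] [Algebra k A] (x : Fin (r + 1) → A),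
      aeval x (linP l1) = aeval x (linP (L 1)) + algebraMap k A c * aeval x (linP (L 2)) := by
    intro A _ _ x
    rw [aeval_linP, aeval_linP, aeval_linP, Finset.mul_sum, ← Finset.sum_add_distrib, hl1]
    refine Finset.sum_congr rfl fun j _ => ?_
    rw [map_add, map_mul]
    ring
  have hl1w : aeval ξ (linP l1) = w := by
    rw [hl1v, ← hu, ← hv, hw]
  obtain ⟨Kt, _, _, η, hη, hgenη, htrη, hvan, hlin, hback⟩ :=
    exists_generic_section hL0 hl1w hv.symm hz.symm hP hPz hmin hirr hDt hQ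
  refine ⟨linP l1 - C t * linP (L 0), ?_, ?_⟩
  · refine (linP_homogeneous l1).sub ?_
    simpa using (isHomogeneous_C (Fin (r + 1)) t).mul (linP_homogeneous (L 0))
  have hval : ∀ {A : Type} [CommRing A] [Algebra k A] (x : Fin (r + 1) → A),
      aeval x (linP l1 - C t * linP (L 0)) = 0 ↔
        aeval x (linP l1) = algebraMap k A t * aeval x (linP (L 0)) := by
    intro A _ _ x
    rw [map_sub, map_mul, aeval_C, sub_eq_zero]
  refine ⟨Kt, inferInstance, inferInstance, fun _ => η, fun _ => hη, hgenη, ?_, ?_⟩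
  · rw [htrη, Nat.cast_one]
  intro zz
  have hzz : (fun p : Fin 1 × Fin (r + 1) => (zz p.1).rep p.2) =
      fun p : Fin 1 × Fin (r + 1) => (zz 0).rep p.2 := by
    funext p
    rw [Subsingleton.elim p.1 0]
  have hgoal : (∀ (G : MvPolynomial (Fin 1 × Fin (r + 1)) k) (d : Fin 1 → ℕ),
      ZC.MultiHomogeneous G d → aeval (fun p : Fin 1 × Fin (r + 1) => η p.2) G = 0 →
        aeval (fun p : Fin 1 × Fin (r + 1) => (zz p.1).rep p.2) G = 0) ↔
      Spz k (fun _ : Fin 1 => η) (fun _ : Fin 1 => (zz 0).rep) := by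
    rw [hzz]
    rfl
  refine Iff.trans ?_ hgoal.symm
  rw [spz_one]
  constructor
  · rintro ⟨hzX, hzh⟩ G d hG hG0
    obtain ⟨F, hF⟩ := hback G d hG hG0
    have hspzx := (hV.mem _).1 hzX
    have hxξ : ∀ (G : MvPolynomial (Fin (r + 1)) k) (d : ℕ), G.IsHomogeneous d →
        aeval ξ G = 0 → aeval (zz 0).rep G = 0 := fun G d hG h0 =>
      spz_one.1 hspzx G d hG ((hform hG).2 h0)
    have hX1 : Transcendental K (RatFunc.X : RatFunc K) := RatFunc.transcendental_X
    have hne3 : (fun j => (RatFunc.X : RatFunc K) * algebraMap K (RatFunc K) (ξ j)) ≠ 0 := by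
      intro h0
      obtain ⟨b, hb⟩ := Function.ne_iff.1 (hθ 0)
      have hb' : θ 0 b ≠ 0 := hb
      have h1 := congrFun h0 b
      have h2 := mul_eq_zero.1 h1
      rcases h2 with h2 | h2
      · exact RatFunc.X_ne_zero h2
      · rw [map_eq_zero, hξj] at h2
        exact mul_ne_zero hl hb' h2
    refine vanish_of_relation hwy hL0 hl1w hv.symm hz.symm hX1 ?_ hxξ ?_ hG ?_ hF
    · refine integral_of_spz (θ := θ) ?_ hne3 ?_
      · intro x hx hsx
        by_contra hcon
        push Not at hcon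
        obtain ⟨i, hi⟩ := hLv x hx hsx
        have h0 : aeval x (linP (L 0)) = 0 := hcon 0
        have h1 : aeval x (linP l1) = 0 := hcon 1
        have h2 : aeval x (linP (L 2)) = 0 := hcon 2
        rw [hl1v, h2, mul_zero, add_zero] at h1
        apply hi
        fin_cases i
        · exact h0
        · exact h1
        · exact h2
      · rw [spz_one]
        intro G d hG h0
        rw [aeval_mul_hom hG]
        have h1 : aeval (fun j => algebraMap K (RatFunc K) (ξ j)) G =
            algebraMap K (RatFunc K) (aeval ξ G) := aeval_algebraMap_apply (RatFunc K) ξ G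
        rw [h1, (hform hG).1 h0, map_zero, mul_zero]
    · exact (hval _).1 hzh
    · rw [map_pow]
      exact pow_ne_zero _ hDt
  · intro H
    refine ⟨?_, ?_⟩
    · rw [hV.mem, spz_one]
      intro G d hG h0
      exact H G d hG (hvan G d hG ((hform hG).1 h0))
    · refine H _ 1 ?_ ((hval _).2 hlin)
      refine (linP_homogeneous l1).sub ?_
      simpa using (isHomogeneous_C (Fin (r + 1)) t).mul (linP_homogeneous (L 0))

end Pool.Agent.K7.H3.ZB
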