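import Pool.Agent.K7.H3.ZB.Int
import Pool.Agent.K7.H3.ZB.BN

/-!
# Going down in the homogeneous coordinate ring
-/

set_option autoImplicit false

open MvPolynomial

namespace Pool.Agent.K7.H3.ZB

open Pool.Agent.K7.H3.ZC (aeval_smul_eq_zero)

variable {k : Type} [Field k] {K : Type} [Field K] [Algebra k K]

/-- Homogeneous coordinates of the generic point of the plane are independent. -/
theorem indep3 [Infinite k] {w y : K} (hwy : Function.Injective (ev2 k w y)) {T : Type} [Field T]
    [Algebra k T] [Algebra K T] [IsScalarTower k K T] {s : T} (hs : Transcendental K s)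
    {F : MvPolynomial (Fin 3) k}
    (hF : aeval ![s, s * algebraMap K T w, s * algebraMap K T y] F = 0) : F = 0 := by
  by_contra hne
  obtain ⟨a, ha⟩ : ∃ a : Fin 3 → k, aeval a (F * X 0) ≠ 0 := by
    by_contra hcon
    push Not at hcon
    refine mul_ne_zero hne (X_ne_zero (R := k) (0 : Fin 3)) ?_
    apply MvPolynomial.funext
    intro a
    rw [map_zero]
    exact hcon a
  rw [map_mul, aeval_X] at ha
  have ha0 : a 0 ≠ 0 := right_ne_zero_of_mul ha
  apply left_ne_zero_of_mul ha
  -- the polynomial in one variable
  have h1 : aeval ![(Polynomial.X : Polynomial K), Polynomial.X * Polynomial.C w,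
      Polynomial.X * Polynomial.C y] F = 0 := by
    apply (transcendental_iff.1 hs)
    rw [← hF]
    have h2 : ((Polynomial.aeval s : Polynomial K →ₐ[K] T).restrictScalars k).comp
        (aeval ![(Polynomial.X : Polynomial K), Polynomial.X * Polynomial.C w,
          Polynomial.X * Polynomial.C y]) =
        aeval ![s, s * algebraMap K T w, s * algebraMap K T y] := by
      apply MvPolynomial.algHom_ext
      intro i
      fin_cases i
      · simp
      · simp
        ring
      · simp
        ring
    exact congrArg (fun φ : MvPolynomial (Fin 3) k →ₐ[k] T => φ F) h2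
  have h3 : aeval ![algebraMap k K (a 0), algebraMap k K (a 0) * w, algebraMap k K (a 0) * y] F =
      0 := by
    have h2 : ((Polynomial.aeval (algebraMap k K (a 0)) : Polynomial K →ₐ[K] K).restrictScalars
        k).comp (aeval ![(Polynomial.X : Polynomial K), Polynomial.X * Polynomial.C w,
          Polynomial.X * Polynomial.C y]) =
        aeval ![algebraMap k K (a 0), algebraMap k K (a 0) * w, algebraMap k K (a 0) * y] := by
      apply MvPolynomial.algHom_ext
      intro i
      fin_cases i
      · simp
      · simp
        ring
      · simp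
        ring
    rw [← h2, AlgHom.comp_apply, h1, map_zero]
  let ev : Polynomial (Polynomial k) →ₐ[k] K := {
    ev2 k w y with
    commutes' := fun c => by
      change ev2 k w y (Polynomial.C (Polynomial.C c)) = _
      simp [ev2] }
  have h4 : aeval ![(Polynomial.C (Polynomial.C (a 0)) : Polynomial (Polynomial k)),
      Polynomial.C (Polynomial.C (a 0) * Polynomial.X),
      Polynomial.C (Polynomial.C (a 0)) * Polynomial.X] F = 0 := by
    apply hwy
    rw [map_zero, ← h3]
    have h2 : ev.comp (aeval ![(Polynomial.C (Polynomial.C (a 0)) : Polynomial (Polynomial k)),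
        Polynomial.C (Polynomial.C (a 0) * Polynomial.X),
        Polynomial.C (Polynomial.C (a 0)) * Polynomial.X]) =
        aeval ![algebraMap k K (a 0), algebraMap k K (a 0) * w, algebraMap k K (a 0) * y] := by
      apply MvPolynomial.algHom_ext
      intro i
      fin_cases i <;> simp [ev, ev2]
    exact congrArg (fun φ : MvPolynomial (Fin 3) k →ₐ[k] K => φ F) h2
  have h2 : ((Polynomial.aeval (a 1 / a 0) : Polynomial k →ₐ[k] k).comp
      ((Polynomial.aeval (Polynomial.C (a 2 / a 0)) :
        Polynomial (Polynomial k) →ₐ[Polynomial k] Polynomial k).restrictScalars k)).comp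
      (aeval ![(Polynomial.C (Polynomial.C (a 0)) : Polynomial (Polynomial k)),
      Polynomial.C (Polynomial.C (a 0) * Polynomial.X),
      Polynomial.C (Polynomial.C (a 0)) * Polynomial.X]) = aeval a := by
    apply MvPolynomial.algHom_ext
    intro i
    fin_cases i
    · simp
    · simp
      field_simp
    · simp
      field_simp
  rw [← h2, AlgHom.comp_apply, h4, map_zero]

/-- Homogenisation of polynomials in two variables. -/
theorem exists_homog {w y : K} {T : Type} [Field T] [Algebra k T] [Algebra K T]
    [IsScalarTower k K T] (s : T) (t : k) (F : Polynomial (Polynomial k)) :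
    ∃ (M : ℕ) (D : MvPolynomial (Fin 3) k),
      aeval ![s, s * algebraMap K T w, s * algebraMap K T y] D =
        s ^ M * algebraMap K T (ev2 k w y F) ∧
      aeval ![(1 : Polynomial k), Polynomial.C t, Polynomial.X] D = sp t F := by
  induction F using Polynomial.induction_on' with
  | add p q hp hq =>
    obtain ⟨M, D, h1, h2⟩ := hp
    obtain ⟨M', D', h1', h2'⟩ := hq
    refine ⟨M + M', X 0 ^ M' * D + X 0 ^ M * D', ?_, ?_⟩
    · rw [map_add, map_mul, map_mul, map_pow, map_pow, aeval_X, h1, h1', map_add, map_add]
      simp only [Matrix.cons_val_zero]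
      ring
    · rw [map_add, map_mul, map_mul, map_pow, map_pow, aeval_X, h2, h2', map_add]
      simp
  | monomial n f =>
    induction f using Polynomial.induction_on' with
    | add p q hp hq =>
      obtain ⟨M, D, h1, h2⟩ := hp
      obtain ⟨M', D', h1', h2'⟩ := hq
      refine ⟨M + M', X 0 ^ M' * D + X 0 ^ M * D', ?_, ?_⟩
      · rw [map_add, map_mul, map_mul, map_pow, map_pow, aeval_X, h1, h1', map_add, map_add,
          map_add]
        simp only [Matrix.cons_val_zero]
        ring
      · rw [map_add, map_mul, map_mul, map_pow, map_pow, aeval_X, h2, h2', map_add, map_add]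
        simp
    | monomial m a =>
      refine ⟨m + n, C a * X 1 ^ m * X 2 ^ n, ?_, ?_⟩
      · rw [map_mul, map_mul, map_pow, map_pow, aeval_C, aeval_X, aeval_X]
        simp only [Matrix.cons_val_one, Matrix.cons_val]
        have h1 : ev2 k w y (Polynomial.monomial n (Polynomial.monomial m a)) =
            algebraMap k K a * w ^ m * y ^ n := by
          simp [ev2, Polynomial.eval₂_monomial]
        rw [h1, map_mul, map_mul, map_pow, map_pow, ← IsScalarTower.algebraMap_apply k K T]
        ring
      · rw [map_mul, map_mul, map_pow, map_pow, aeval_C, aeval_X, aeval_X]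
        simp only [Matrix.cons_val_one, Matrix.cons_val]
        have h1 : sp t (Polynomial.monomial n (Polynomial.monomial m a)) =
            Polynomial.C (a * t ^ m) * Polynomial.X ^ n := by
          rw [Polynomial.C_mul_X_pow_eq_monomial]
          simp [sp]
        rw [h1, map_mul, map_pow]
        rfl

/-- Homogenisation of polynomials in `z`. -/
theorem exists_homog' {w y z : K} {T : Type} [Field T] [Algebra k T] [Algebra K T]
    [IsScalarTower k K T] {s : T} {A : Subalgebra k T} (h0 : s ∈ A)
    (h1 : s * algebraMap K T w ∈ A) (h2 : s * algebraMap K T y ∈ A)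
    (h3 : s * algebraMap K T z ∈ A) (F : Polynomial (Polynomial (Polynomial k))) :
    ∃ N : ℕ, s ^ N * algebraMap K T (F.eval₂ (ev2 k w y) z) ∈ A := by
  have hadd : ∀ a b : K, (∃ N : ℕ, s ^ N * algebraMap K T a ∈ A) →
      (∃ N : ℕ, s ^ N * algebraMap K T b ∈ A) → ∃ N : ℕ, s ^ N * algebraMap K T (a + b) ∈ A := by
    rintro a b ⟨N, hN⟩ ⟨N', hN'⟩
    refine ⟨N + N', ?_⟩
    have h4 : s ^ (N + N') * algebraMap K T (a + b) =
        s ^ N' * (s ^ N * algebraMap K T a) + s ^ N * (s ^ N' * algebraMap K T b) := by
      rw [map_add]
      ring
    rw [h4]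
    exact add_mem (mul_mem (pow_mem h0 _) hN) (mul_mem (pow_mem h0 _) hN')
  induction F using Polynomial.induction_on' with
  | add p q hp hq =>
    rw [Polynomial.eval₂_add]
    exact hadd _ _ hp hq
  | monomial l F =>
    induction F using Polynomial.induction_on' with
    | add p q hp hq =>
      rw [map_add, Polynomial.eval₂_add]
      exact hadd _ _ hp hq
    | monomial n f =>
      induction f using Polynomial.induction_on' with
      | add p q hp hq =>
        rw [map_add, map_add, Polynomial.eval₂_add]
        exact hadd _ _ hp hq
      | monomial m a =>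
        refine ⟨m + n + l, ?_⟩
        have h4 : Polynomial.eval₂ (ev2 k w y) z (Polynomial.monomial l
            (Polynomial.monomial n (Polynomial.monomial m a))) =
            algebraMap k K a * w ^ m * y ^ n * z ^ l := by
          rw [Polynomial.eval₂_monomial]
          congr 1
          simp [ev2, Polynomial.eval₂_monomial]
        have h5 : s ^ (m + n + l) * algebraMap K T (algebraMap k K a * w ^ m * y ^ n * z ^ l) =
            algebraMap k T a * (s * algebraMap K T w) ^ m * (s * algebraMap K T y) ^ n *
              (s * algebraMap K T z) ^ l := by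
          rw [map_mul, map_mul, map_mul, map_pow, map_pow, map_pow,
            ← IsScalarTower.algebraMap_apply k K T]
          ring
        rw [h4, h5]
        exact mul_mem (mul_mem (mul_mem (A.algebraMap_mem a) (pow_mem h1 _)) (pow_mem h2 _))
          (pow_mem h3 _)

end Pool.Agent.K7.H3.ZB
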