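import Pool.Agent.K7.H3.ZB.Cone

/-!
# Going down to a plane section
-/

set_option autoImplicit false

open MvPolynomial

namespace Pool.Agent.K7.H3.ZB

variable {k : Type} [Field k] {K : Type} [Field K] [Algebra k K] {r : ℕ}

theorem aeval_mul_hom {A : Type} [CommRing A] [Algebra k A] {G : MvPolynomial (Fin (r + 1)) k}
    {d : ℕ} (hG : G.IsHomogeneous d) (c : A) (v : Fin (r + 1) → A) :
    aeval (fun j => c * v j) G = c ^ d * aeval v G := by
  rw [aeval_def, aeval_def, eval₂_eq', eval₂_eq', Finset.mul_sum]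
  refine Finset.sum_congr rfl fun m hm => ?_
  have h2 : ∏ i, (c * v i) ^ m i = c ^ d * ∏ i, v i ^ m i := by
    have h3 : ∑ i, m i = d := by
      rw [← Finsupp.degree_eq_sum, Finsupp.degree_eq_weight_one]
      exact hG (mem_support_iff.1 hm)
    rw [← h3, ← Finset.prod_pow_eq_pow_sum, ← Finset.prod_mul_distrib]
    refine Finset.prod_congr rfl fun i _ => ?_
    rw [mul_pow]
  rw [h2]
  ring

theorem ker_cone {T : Type} [Field T] [Algebra k T] [Algebra K T] [IsScalarTower k K T] {s : T}
    (hs : Transcendental K s) {ξ : Fin (r + 1) → K} {x : Fin (r + 1) → k}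
    (hx : ∀ (G : MvPolynomial (Fin (r + 1)) k) (d : ℕ), G.IsHomogeneous d → aeval ξ G = 0 →
      aeval x G = 0) {F : MvPolynomial (Fin (r + 1)) k}
    (hF : aeval (fun j => s * algebraMap K T (ξ j)) F = 0) : aeval x F = 0 := by
  let q : Polynomial K := ∑ d ∈ Finset.range (F.totalDegree + 1),
    Polynomial.monomial d (aeval ξ (homogeneousComponent d F))
  have hq : Polynomial.aeval s q = 0 := by
    rw [← hF, map_sum]
    conv_rhs => rw [← sum_homogeneousComponent F]
    rw [map_sum]
    refine Finset.sum_congr rfl fun d _ => ?_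
    rw [aeval_mul_hom (homogeneousComponent_isHomogeneous d F), Polynomial.aeval_monomial, mul_comm]
    congr 1
    exact (aeval_algebraMap_apply T ξ _).symm
  have hq0 := (transcendental_iff.1 hs) q hq
  rw [← sum_homogeneousComponent F, map_sum]
  refine Finset.sum_eq_zero fun d hd => ?_
  apply hx _ d (homogeneousComponent_isHomogeneous d F)
  have h1 := congrArg (fun p : Polynomial K => p.coeff d) hq0
  simp only [Polynomial.coeff_zero] at h1
  rw [← h1, Polynomial.finsetSum_coeff, Finset.sum_eq_single d]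
  · rw [Polynomial.coeff_monomial_same]
  · intro d' _ hne
    rw [Polynomial.coeff_monomial_of_ne _ hne.symm]
  · intro h
    exact absurd hd h

theorem vanish_of_relation [Infinite k] {ξ : Fin (r + 1) → K} {w y z : K}
    (hwy : Function.Injective (ev2 k w y)) {l0 l1 l2 le : Fin (r + 1) → k}
    (h0 : aeval ξ (linP l0) = 1) (h1 : aeval ξ (linP l1) = w) (h2 : aeval ξ (linP l2) = y)
    (h3 : aeval ξ (linP le) = z) {T : Type} [Field T] [Algebra k T] [Algebra K T]
    [IsScalarTower k K T] {s : T} (hs : Transcendental K s)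
    (hint : ∀ j, IsIntegral (Algebra.adjoin k (Set.range fun i : Fin 3 =>
      aeval (fun j => s * algebraMap K T (ξ j)) (linP ((![l0, l1, l2] : Fin 3 → _) i))))
        (s * algebraMap K T (ξ j)))
    {x : Fin (r + 1) → k}
    (hx : ∀ (G : MvPolynomial (Fin (r + 1)) k) (d : ℕ), G.IsHomogeneous d → aeval ξ G = 0 →
      aeval x G = 0) {t : k} (hxt : aeval x (linP l1) = t * aeval x (linP l0))
    {G : MvPolynomial (Fin (r + 1)) k} {d : ℕ} (hG : G.IsHomogeneous d)
    {D : Polynomial (Polynomial k)} (hD : sp t D ≠ 0) {F : Polynomial (Polynomial (Polynomial k))}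
    (hrel : ev2 k w y D * aeval ξ G = (w - algebraMap k K t) * F.eval₂ (ev2 k w y) z) :
    aeval x G = 0 := by
  classical
  let Φ : MvPolynomial (Fin (r + 1)) k →ₐ[k] T := aeval (fun j => s * algebraMap K T (ξ j))
  let A : Subalgebra k T := Φ.range
  have hΦ : ∀ {G : MvPolynomial (Fin (r + 1)) k} {d : ℕ}, G.IsHomogeneous d →
      Φ G = s ^ d * algebraMap K T (aeval ξ G) := by
    intro G d hG
    change aeval (fun j => s * algebraMap K T (ξ j)) G = _
    rw [aeval_mul_hom hG]
    congr 1
    exact aeval_algebraMap_apply T ξ _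
  have hΦl : ∀ l, Φ (linP l) = s * algebraMap K T (aeval ξ (linP l)) := fun l => by
    rw [hΦ (linP_homogeneous l), pow_one]
  have hA0 : s ∈ A := ⟨linP l0, by
    change Φ (linP l0) = s
    rw [hΦl, h0, map_one, mul_one]⟩
  have hA1 : s * algebraMap K T w ∈ A := ⟨linP l1, by
    change Φ (linP l1) = _
    rw [hΦl, h1]⟩
  have hA2 : s * algebraMap K T y ∈ A := ⟨linP l2, by
    change Φ (linP l2) = _
    rw [hΦl, h2]⟩
  have hA3 : s * algebraMap K T z ∈ A := ⟨linP le, by
    change Φ (linP le) = _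
    rw [hΦl, h3]⟩
  let v3 : Fin 3 → A := ![⟨s, hA0⟩, ⟨s * algebraMap K T w, hA1⟩, ⟨s * algebraMap K T y, hA2⟩]
  let Ψ : MvPolynomial (Fin 3) k →ₐ[k] A := aeval v3
  have hv3 : (fun i => (v3 i : T)) = ![s, s * algebraMap K T w, s * algebraMap K T y] := by
    funext i
    fin_cases i <;> rfl
  have hΨ : ∀ F, ((Ψ F : A) : T) = aeval ![s, s * algebraMap K T w, s * algebraMap K T y] F := by
    intro F
    rw [← hv3]
    have h4 : A.val.comp Ψ = aeval (fun i => (v3 i : T)) := by
      rw [comp_aeval]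
      rfl
    exact congrArg (fun φ : MvPolynomial (Fin 3) k →ₐ[k] T => φ F) h4
  let : Algebra (MvPolynomial (Fin 3) k) A := Ψ.toRingHom.toAlgebra
  have halg : ∀ F, algebraMap (MvPolynomial (Fin 3) k) A F = Ψ F := fun F => rfl
  have hinj : Function.Injective Ψ := by
    rw [injective_iff_map_eq_zero]
    intro F hF
    apply indep3 hwy hs
    rw [← hΨ, hF]
    rfl
  have hfaith : FaithfulSMul (MvPolynomial (Fin 3) k) A :=
    (faithfulSMul_iff_algebraMap_injective _ _).2 hinj
  -- integrality
  have hmemA : ∀ F, Φ F ∈ A := fun F => ⟨F, rfl⟩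
  have hgenint : ∀ j, IsIntegral (MvPolynomial (Fin 3) k) (⟨Φ (X j), hmemA _⟩ : A) := by
    intro j
    obtain ⟨p, hp, hp0⟩ := hint j
    have hset : (fun i : Fin 3 => aeval (fun j => s * algebraMap K T (ξ j))
        (linP ((![l0, l1, l2] : Fin 3 → _) i))) =
        ![s, s * algebraMap K T w, s * algebraMap K T y] := by
      funext i
      fin_cases i
      · change Φ (linP l0) = s
        rw [hΦl, h0, map_one, mul_one]
      · change Φ (linP l1) = _
        rw [hΦl, h1]
        rfl
      · change Φ (linP l2) = _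
        rw [hΦl, h2]
        rfl
    have hmem : ∀ F : MvPolynomial (Fin 3) k,
        aeval ![s, s * algebraMap K T w, s * algebraMap K T y] F ∈
          Algebra.adjoin k (Set.range fun i : Fin 3 =>
            aeval (fun j => s * algebraMap K T (ξ j)) (linP ((![l0, l1, l2] : Fin 3 → _) i))) := by
      intro F
      rw [hset, Algebra.adjoin_range_eq_range_aeval]
      exact ⟨F, rfl⟩
    let π := (aeval ![s, s * algebraMap K T w, s * algebraMap K T y] :
      MvPolynomial (Fin 3) k →ₐ[k] T).codRestrict _ hmem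
    have hπ : Function.Surjective π := by
      rintro ⟨a, ha⟩
      have ha' := ha
      rw [hset, Algebra.adjoin_range_eq_range_aeval] at ha'
      obtain ⟨F, hF⟩ := ha'
      exact ⟨F, Subtype.ext hF⟩
    obtain ⟨q, hqp, -, hq⟩ := Polynomial.lifts_and_natDegree_eq_and_monic
      (f := π.toRingHom) ((Polynomial.mem_lifts p).2 (Polynomial.map_surjective π.toRingHom hπ p))
      hp
    refine ⟨q, hq, ?_⟩
    apply Subtype.val_injective
    have h4 : ((Polynomial.eval₂ (algebraMap (MvPolynomial (Fin 3) k) A)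
        (⟨Φ (X j), hmemA _⟩ : A) q : A) : T) =
        Polynomial.eval₂ (A.val.toRingHom.comp (algebraMap (MvPolynomial (Fin 3) k) A))
          (Φ (X j)) q := Polynomial.hom_eval₂ q _ A.val.toRingHom _
    rw [h4]
    rw [← hqp, Polynomial.eval₂_map] at hp0
    have h5 : A.val.toRingHom.comp (algebraMap (MvPolynomial (Fin 3) k) A) =
        (algebraMap (Algebra.adjoin k (Set.range fun i : Fin 3 =>
            aeval (fun j => s * algebraMap K T (ξ j)) (linP ((![l0, l1, l2] : Fin 3 → _) i))))
          T).comp π.toRingHom := by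
      apply RingHom.ext
      intro F
      exact hΨ F
    have h6 : Φ (X j) = s * algebraMap K T (ξ j) := aeval_X _ j
    rw [h5, h6]
    exact hp0
  have hint' : Algebra.IsIntegral (MvPolynomial (Fin 3) k) A := by
    refine ⟨fun a => ?_⟩
    obtain ⟨a, F, rfl⟩ := a
    change IsIntegral (MvPolynomial (Fin 3) k) (⟨Φ F, hmemA F⟩ : A)
    induction F using MvPolynomial.induction_on with
    | C a =>
      have h4 : (⟨Φ (C a), hmemA _⟩ : A) = algebraMap (MvPolynomial (Fin 3) k) A (C a) := by
        apply Subtype.ext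
        rw [halg, hΨ]
        exact (aeval_C _ a).trans (aeval_C _ a).symm
      rw [h4]
      exact isIntegral_algebraMap
    | add p q hp hq =>
      have h4 : (⟨Φ (p + q), hmemA _⟩ : A) = ⟨Φ p, hmemA p⟩ + ⟨Φ q, hmemA q⟩ :=
        Subtype.ext (map_add Φ p q)
      rw [h4]
      exact hp.add hq
    | mul_X p j hp =>
      have h4 : (⟨Φ (p * X j), hmemA _⟩ : A) = ⟨Φ p, hmemA p⟩ * ⟨Φ (X j), hmemA _⟩ :=
        Subtype.ext (map_mul Φ p (X j))
      rw [h4]
      exact hp.mul (hgenint j)
  -- the prime ideal of the point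
  let Φ' : MvPolynomial (Fin (r + 1)) k →+* A := Φ.rangeRestrict.toRingHom
  have hΦ's : Function.Surjective Φ' := Φ.rangeRestrict_surjective
  have hΦ'v : ∀ F, ((Φ' F : A) : T) = Φ F := fun F => rfl
  have hker : RingHom.ker Φ' ≤ RingHom.ker (aeval x : MvPolynomial (Fin (r + 1)) k →ₐ[k] k) := by
    intro F hF
    rw [RingHom.mem_ker] at hF ⊢
    apply ker_cone hs hx
    have h4 : Φ F = 0 := congrArg Subtype.val hF
    exact h4
  let Q : Ideal A := Ideal.map Φ' (RingHom.ker (aeval x : MvPolynomial (Fin (r + 1)) k →ₐ[k] k))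
  have hprime : (RingHom.ker (aeval x : MvPolynomial (Fin (r + 1)) k →ₐ[k] k)).IsPrime :=
    RingHom.ker_isPrime _
  have hQ : Q.IsPrime := Ideal.map_isPrime_of_surjective hΦ's hker
  have hQmem : ∀ F, Φ' F ∈ Q → aeval x F = 0 := by
    intro F hF
    obtain ⟨F', hF', hFF⟩ := (Ideal.mem_map_iff_of_surjective Φ' hΦ's).1 hF
    have h4 : F' - F ∈ RingHom.ker Φ' := by
      rw [RingHom.mem_ker, map_sub, hFF, sub_self]
    have h5 := hker h4
    rw [RingHom.mem_ker] at h5 hF'
    rw [map_sub, hF', zero_sub, neg_eq_zero] at h5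
    exact h5
  -- the prime ideal of the plane section
  let χ : MvPolynomial (Fin 3) k →ₐ[k] Polynomial (Polynomial k) :=
    aeval ![Polynomial.C Polynomial.X, Polynomial.C (Polynomial.C t * Polynomial.X), Polynomial.X]
  have hp : (RingHom.ker χ).IsPrime := RingHom.ker_isPrime _
  have hle : RingHom.ker χ ≤ Q.under (MvPolynomial (Fin 3) k) := by
    intro F hF
    rw [RingHom.mem_ker] at hF
    rw [Ideal.mem_comap, halg]
    have h4 : Ψ F = Φ' (aeval ![linP l0, linP l1, linP l2] F) := by
      have h5 : Ψ = (Φ.rangeRestrict).comp (aeval ![linP l0, linP l1, linP l2]) := by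
        apply MvPolynomial.algHom_ext
        intro i
        apply Subtype.ext
        fin_cases i
        · simp [Ψ, v3, hΦl, h0]
        · simp [Ψ, v3, hΦl, h1]
        · simp [Ψ, v3, hΦl, h2]
      exact congrArg (fun φ : MvPolynomial (Fin 3) k →ₐ[k] A => φ F) h5
    rw [h4]
    apply Ideal.mem_map_of_mem
    rw [RingHom.mem_ker]
    have h6 : (aeval x).comp (aeval ![linP l0, linP l1, linP l2]) =
        ((Polynomial.aeval (aeval x (linP l0)) : Polynomial k →ₐ[k] k).comp
          ((Polynomial.aeval (Polynomial.C (aeval x (linP l2))) :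
            Polynomial (Polynomial k) →ₐ[Polynomial k] Polynomial k).restrictScalars k)).comp
          χ := by
      apply MvPolynomial.algHom_ext
      intro i
      fin_cases i
      · simp [χ]
      · simpa [χ] using hxt
      · simp [χ]
    have h7 := congrArg (fun φ : MvPolynomial (Fin 3) k →ₐ[k] k => φ F) h6
    simp only [AlgHom.comp_apply] at h7
    rw [h7, hF, map_zero, map_zero]
  have hunder : (Q.under (MvPolynomial (Fin 3) k)).IsPrime := inferInstance
  obtain ⟨P, hPQ, hP, hPo⟩ := Ideal.exists_ideal_le_liesOver_of_le (p := RingHom.ker χ)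
    (q := Q.under (MvPolynomial (Fin 3) k)) Q hle
  have hPmem : ∀ F, Ψ F ∈ P ↔ χ F = 0 := by
    intro F
    have h4 := hPo.over
    rw [← RingHom.mem_ker (f := χ), h4, Ideal.mem_comap, halg]
  -- the relation
  obtain ⟨M, D0, hD1, hD2⟩ := exists_homog (w := w) (y := y) (T := T) s t D
  obtain ⟨N, hN⟩ := exists_homog' (w := w) (y := y) (z := z) hA0 hA1 hA2 hA3 F
  have hkey : Ψ (X 0 ^ (N + 1) * D0) * Φ' G =
      Ψ (X 1 - C t * X 0) * ((⟨s, hA0⟩ : A) ^ (M + d) *
        ⟨s ^ N * algebraMap K T (F.eval₂ (ev2 k w y) z), hN⟩) := by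
    apply Subtype.ext
    change ((Ψ (X 0 ^ (N + 1) * D0) : A) : T) * Φ G =
      ((Ψ (X 1 - C t * X 0) : A) : T) * (s ^ (M + d) *
        (s ^ N * algebraMap K T (F.eval₂ (ev2 k w y) z)))
    rw [hΨ, hΨ, map_mul, map_pow, aeval_X, hD1, hΦ hG, map_sub, map_mul, aeval_C, aeval_X, aeval_X]
    simp only [Matrix.cons_val_zero, Matrix.cons_val_one]
    have h4 := congrArg (algebraMap K T) hrel
    rw [map_mul, map_mul, map_sub, ← IsScalarTower.algebraMap_apply k K T] at h4
    linear_combination s ^ (N + 1 + M + d) * h4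
  have h4 : Ψ (X 1 - C t * X 0) ∈ P := by
    rw [hPmem]
    simp [χ]
  have h5 : Ψ (X 0 ^ (N + 1) * D0) * Φ' G ∈ P := by
    rw [hkey]
    exact P.mul_mem_right _ h4
  rcases hP.mem_or_mem h5 with h6 | h6
  · exfalso
    rw [hPmem] at h6
    apply hD
    have h7 : (Polynomial.mapAlgHom (Polynomial.aeval (1 : k) : Polynomial k →ₐ[k] k)).comp χ =
        aeval ![(1 : Polynomial k), Polynomial.C t, Polynomial.X] := by
      apply MvPolynomial.algHom_ext
      intro i
      fin_cases i
      · simp [χ]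
      · simp [χ]
      · simp [χ]
    have h8 := congrArg (fun φ : MvPolynomial (Fin 3) k →ₐ[k] Polynomial k =>
      φ (X 0 ^ (N + 1) * D0)) h7
    simp only [AlgHom.comp_apply, h6, map_zero] at h8
    rw [map_mul, map_pow, aeval_X, hD2] at h8
    simpa using h8.symm
  · exact hQmem G (hPQ h6)

end Pool.Agent.K7.H3.ZB
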