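import Mathlib

/-!
# Irreducibility over extensions of the field of constants
-/

set_option autoImplicit false

open Polynomial

namespace Pool.Agent.K7.H3.ZB

variable {k K : Type} [Field k] [Field K] [Algebra k K]

/-- The evaluation of polynomials in two variables. -/
noncomputable def ev2 (k : Type) {K : Type} [Field k] [Field K] [Algebra k K] (w y : K) :
    k[X][X] →+* K :=
  eval₂RingHom (aeval w : k[X] →ₐ[k] K).toRingHom y

/-- Traces of integral elements, in terms of homomorphisms. -/
theorem trace_int {O L M : Type} [CommRing O] [Field L] [Field M] [Algebra L M]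
    [FiniteDimensional L M] (f : O →+* L) {x : M}
    (hx : ∃ m : O[X], m.Monic ∧ m.eval₂ ((algebraMap L M).comp f) x = 0) :
    ∃ m : O[X], m.Monic ∧ m.eval₂ f (Algebra.trace L M x) = 0 := by
  let : Algebra O L := f.toAlgebra
  let : Algebra O M := ((algebraMap L M).comp f).toAlgebra
  have : IsScalarTower O L M := IsScalarTower.of_algebraMap_eq fun _ => rfl
  exact Algebra.isIntegral_trace (R := O) (L := L) (F := M) (x := x) hx

theorem no_factor [CharZero k] {w y z : K} {P : Polynomial k[X][X]}
    (hmin : ∀ Q : Polynomial k[X][X], Q.eval₂ (ev2 k w y) z = 0 → P ∣ Q)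
    (hreg : ∀ β : K, (∃ m : k[X][X], m.Monic ∧
      m.eval₂ (aeval w : k[X] →ₐ[k] K).toRingHom β = 0) → ∃ p : k[X], aeval w p = β)
    {T : Type} [Field T] [Algebra K T] {F : T[X][X]} (hF : F.Monic)
    (hdeg : F.natDegree < P.natDegree)
    (hint : ∀ i j, ∃ m : k[X][X], m.Monic ∧
      m.eval₂ ((algebraMap K T).comp (aeval w : k[X] →ₐ[k] K).toRingHom)
        ((F.coeff i).coeff j) = 0)
    (h0 : (F.map (evalRingHom (algebraMap K T y))).eval (algebraMap K T z) = 0) : False := by
  classical
  have : CharZero K := charZero_of_injective_algebraMap (algebraMap k K).injective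
  obtain ⟨N, hN⟩ : ∃ N : ℕ, ∀ i, (F.coeff i).natDegree ≤ N := by
    refine ⟨F.support.sup fun i => (F.coeff i).natDegree, fun i => ?_⟩
    by_cases hi : i ∈ F.support
    · exact Finset.le_sup (f := fun i => (F.coeff i).natDegree) hi
    · rw [notMem_support_iff.1 hi, natDegree_zero]
      exact Nat.zero_le _
  -- the field generated by the coefficients
  let S : Set T := (fun p : ℕ × ℕ => (F.coeff p.1).coeff p.2) ''
    (Finset.range (F.natDegree + 1) ×ˢ Finset.range (N + 1) : Finset (ℕ × ℕ))
  have hSfin : Finite S := ((Finset.finite_toSet _).image _).to_subtype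
  let M := IntermediateField.adjoin K S
  have hM : FiniteDimensional K M := by
    apply IntermediateField.finiteDimensional_adjoin
    rintro x ⟨p, -, rfl⟩
    obtain ⟨m, hm, hm0⟩ := hint p.1 p.2
    refine ⟨m.map (aeval w : k[X] →ₐ[k] K).toRingHom, hm.map _, ?_⟩
    rw [eval₂_map]
    exact hm0
  have hmem : ∀ i j, (F.coeff i).coeff j ∈ M := by
    intro i j
    by_cases hi : i ∈ Finset.range (F.natDegree + 1)
    · by_cases hj : j ∈ Finset.range (N + 1)
      · apply IntermediateField.subset_adjoin
        exact ⟨(i, j), Finset.mem_coe.2 (Finset.mem_product.2 ⟨hi, hj⟩), rfl⟩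
      · rw [Finset.mem_range] at hj
        have := hN i
        rw [coeff_eq_zero_of_natDegree_lt (by omega)]
        exact M.zero_mem
    · rw [Finset.mem_range] at hi
      rw [coeff_eq_zero_of_natDegree_lt (p := F) (by omega), coeff_zero]
      exact M.zero_mem
  let c : ℕ → ℕ → M := fun i j => ⟨(F.coeff i).coeff j, hmem i j⟩
  have hc : ∀ i j, ∃ p : k[X], aeval w p = Algebra.trace K M (c i j) := by
    intro i j
    apply hreg
    apply trace_int
    obtain ⟨m, hm, hm0⟩ := hint i j
    refine ⟨m, hm, ?_⟩
    apply (algebraMap M T).injective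
    rw [map_zero, hom_eval₂]
    exact hm0
  choose q hq using hc
  -- the relation in `M`
  have hrel : ∑ i ∈ Finset.range (F.natDegree + 1), ∑ j ∈ Finset.range (N + 1),
      (y ^ j * z ^ i) • c i j = 0 := by
    apply (algebraMap M T).injective
    rw [map_zero, ← h0, eval_eq_sum_range' (n := F.natDegree + 1)
      (Nat.lt_succ_of_le natDegree_map_le), map_sum]
    refine Finset.sum_congr rfl fun i _ => ?_
    rw [coeff_map, coe_evalRingHom, eval_eq_sum_range' (n := N + 1) (Nat.lt_succ_of_le (hN i)),
      map_sum, Finset.sum_mul]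
    refine Finset.sum_congr rfl fun j _ => ?_
    rw [Algebra.smul_def, map_mul, ← IsScalarTower.algebraMap_apply K M T, map_mul, map_pow,
      map_pow]
    change _ * ((F.coeff i).coeff j) = _
    ring
  have htr : ∑ i ∈ Finset.range (F.natDegree + 1), ∑ j ∈ Finset.range (N + 1),
      aeval w (q i j) * (y ^ j * z ^ i) = 0 := by
    have h1 := congrArg (Algebra.trace K M) hrel
    rw [map_zero, map_sum] at h1
    rw [← h1]
    refine Finset.sum_congr rfl fun i _ => ?_
    rw [map_sum]
    refine Finset.sum_congr rfl fun j _ => ?_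
    rw [map_smul, hq, smul_eq_mul, mul_comm]
  let Q : Polynomial k[X][X] := ∑ i ∈ Finset.range (F.natDegree + 1), ∑ j ∈ Finset.range (N + 1),
    monomial i (monomial j (q i j))
  have hQ0 : Q.eval₂ (ev2 k w y) z = 0 := by
    rw [eval₂_finsetSum, ← htr]
    refine Finset.sum_congr rfl fun i _ => ?_
    rw [eval₂_finsetSum]
    refine Finset.sum_congr rfl fun j _ => ?_
    rw [eval₂_monomial]
    change eval₂ (aeval w : k[X] →ₐ[k] K).toRingHom y (monomial j (q i j)) * z ^ i = _
    rw [eval₂_monomial]
    change aeval w (q i j) * y ^ j * z ^ i = _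
    ring
  have hQc : ∀ i ≤ F.natDegree, ∀ j ≤ N, (Q.coeff i).coeff j = q i j := by
    intro i hi j hj
    rw [finsetSum_coeff, finsetSum_coeff, Finset.sum_eq_single i, finsetSum_coeff,
      finsetSum_coeff, Finset.sum_eq_single j, coeff_monomial_same, coeff_monomial_same]
    · intro j' _ hne
      rw [coeff_monomial_same, coeff_monomial_of_ne _ hne.symm]
    · intro h
      exact absurd (Finset.mem_range.2 (Nat.lt_succ_of_le hj)) h
    · intro i' _ hne
      rw [finsetSum_coeff, finsetSum_coeff]
      refine Finset.sum_eq_zero fun j' _ => ?_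
      rw [coeff_monomial_of_ne _ hne.symm, coeff_zero]
    · intro h
      exact absurd (Finset.mem_range.2 (Nat.lt_succ_of_le hi)) h
  have hQdeg : Q.natDegree ≤ F.natDegree := by
    refine natDegree_sum_le_of_forall_le _ _ fun i hi => ?_
    refine natDegree_sum_le_of_forall_le _ _ fun j _ => ?_
    exact (natDegree_monomial_le _).trans (Nat.lt_succ_iff.1 (Finset.mem_range.1 hi))
  have hQz : Q = 0 := by
    by_contra hne
    have h1 := natDegree_le_of_dvd (hmin Q hQ0) hne
    omega
  have h1 := hQc F.natDegree le_rfl 0 (Nat.zero_le _)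
  rw [hQz, coeff_zero, coeff_zero] at h1
  have h2 := hq F.natDegree 0
  rw [← h1, map_zero] at h2
  have h3 : c F.natDegree 0 = 1 := by
    apply Subtype.ext
    change (F.coeff F.natDegree).coeff 0 = 1
    rw [hF.coeff_natDegree, coeff_one_zero]
  rw [h3, ← map_one (algebraMap K M), Algebra.trace_algebraMap, nsmul_eq_mul, mul_one] at h2
  exact (Nat.cast_ne_zero.2 Module.finrank_pos.ne') h2.symm

end Pool.Agent.K7.H3.ZB
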