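import Pool.Agent.K7.H3.ZB.Fac

/-!
# Geometric irreducibility
-/

set_option autoImplicit false

open Polynomial

namespace Pool.Agent.K7.H3.ZB

variable {k K : Type} [Field k] [Field K] [Algebra k K]

attribute [local instance] Polynomial.algebra

/-- Integrality of the coefficients of the coefficients of a monic factor. -/
theorem integral_factor {O k' : Type} [CommRing O] [Field k'] (φ : O →+* k')
    {P : Polynomial O[X]} (hP : P.Monic) {f : k'[X][X]} (hf : f.Monic)
    (hfP : f ∣ P.map (mapRingHom φ)) (i j : ℕ) :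
    ∃ m : O[X], m.Monic ∧ m.eval₂ φ ((f.coeff i).coeff j) = 0 := by
  let : Algebra O k' := φ.toAlgebra
  have h1 : IsIntegral O[X] (f.coeff i) := isIntegral_coeff_of_dvd P f hP hf hfP i
  exact Polynomial.isIntegral_iff_isIntegral_coeff.1 h1 j

/-- **Geometric irreducibility.** -/
theorem irreducible_map [CharZero k] {w y z : K} (hw : Function.Injective (aeval w : k[X] →ₐ[k] K))
    {P : Polynomial k[X][X]} (hP : P.Monic) (hPz : P.eval₂ (ev2 k w y) z = 0)
    (hmin : ∀ Q : Polynomial k[X][X], Q.eval₂ (ev2 k w y) z = 0 → P ∣ Q)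
    (hreg : ∀ β : K, (∃ m : k[X][X], m.Monic ∧
      m.eval₂ (aeval w : k[X] →ₐ[k] K).toRingHom β = 0) → ∃ p : k[X], aeval w p = β)
    {k' : Type} [Field k'] (φ : k[X] →+* k') (hφ : Function.Injective φ) :
    Irreducible (P.map (mapRingHom φ)) := by
  classical
  have hP' : (P.map (mapRingHom φ)).Monic := hP.map _
  rw [hP'.irreducible_iff_natDegree]
  have hdeg : (P.map (mapRingHom φ)).natDegree = P.natDegree := hP.natDegree_map _
  refine ⟨?_, ?_⟩
  · intro h1
    rw [h1, natDegree_one] at hdeg
    have h2 := hP.natDegree_eq_zero.1 hdeg.symm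
    rw [h2, eval₂_one] at hPz
    exact one_ne_zero hPz
  intro f g hf hg hfg
  by_contra hcon
  rw [not_or] at hcon
  obtain ⟨hf0, hg0⟩ := hcon
  have hsum : f.natDegree + g.natDegree = P.natDegree := by
    rw [← hdeg, ← hfg, hf.natDegree_mul hg]
  -- the ring of the elements which are integral over `k[X]`
  let : Algebra k[X] k' := φ.toAlgebra
  let M := integralClosure k[X] k'
  let ι : M →+* k' := M.val.toRingHom
  have hι : Function.Injective ι := Subtype.val_injective
  have hιι : Function.Injective (mapRingHom ι) := map_injective ι hι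
  have hlift : ∀ f : k'[X][X], f.Monic → f ∣ P.map (mapRingHom φ) →
      ∃ f0 : Polynomial M[X], f0.map (mapRingHom ι) = f := by
    intro f hf hfP
    rw [← mem_lifts, lifts_iff_coeff_lifts]
    intro i
    have h1 : f.coeff i ∈ lifts ι := by
      rw [lifts_iff_coeff_lifts]
      intro j
      exact ⟨⟨(f.coeff i).coeff j, integral_factor φ hP hf hfP i j⟩, rfl⟩
    obtain ⟨q, hq⟩ := (mem_lifts _).1 h1
    exact ⟨q, hq⟩
  obtain ⟨f0, hf0'⟩ := hlift f hf ⟨g, hfg.symm⟩
  obtain ⟨g0, hg0'⟩ := hlift g hg ⟨f, by rw [← hfg, mul_comm]⟩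
  have hf0m : f0.Monic := monic_of_injective hιι (by rw [hf0']; exact hf)
  have hg0m : g0.Monic := monic_of_injective hιι (by rw [hg0']; exact hg)
  have hιφ : ι.comp (algebraMap k[X] M) = φ := rfl
  have hprod : f0 * g0 = P.map (mapRingHom (algebraMap k[X] M)) := by
    apply map_injective _ hιι
    rw [Polynomial.map_mul, hf0', hg0', hfg, Polynomial.map_map, mapRingHom_comp, hιφ]
  have hprod2 : g0 * f0 = P.map (mapRingHom (algebraMap k[X] M)) := by
    apply map_injective _ hιι
    rw [Polynomial.map_mul, hf0', hg0', mul_comm g f, hfg, Polynomial.map_map, mapRingHom_comp,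
      hιφ]
  -- the embedding in the algebraic closure
  let T := AlgebraicClosure K
  let ψ : k[X] →+* T := (algebraMap K T).comp (aeval w : k[X] →ₐ[k] K).toRingHom
  have hψ : Function.Injective ψ := (algebraMap K T).injective.comp hw
  let : Algebra k[X] T := ψ.toAlgebra
  have hF1 : FaithfulSMul k[X] T := (faithfulSMul_iff_algebraMap_injective _ _).2 hψ
  have hF2 : FaithfulSMul k[X] k' := (faithfulSMul_iff_algebraMap_injective _ _).2 hφ
  have hF3 : FaithfulSMul k[X] M := (faithfulSMul_iff_algebraMap_injective _ _).2 (by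
    intro a b hab
    apply hφ
    rw [← hιφ]
    exact congrArg ι hab)
  let σ : M →ₐ[k[X]] T := IsAlgClosed.lift
  have hσ : (σ : M →+* T).comp (algebraMap k[X] M) = ψ := σ.comp_algebraMap
  have hprod' : f0.map (mapRingHom (σ : M →+* T)) * g0.map (mapRingHom (σ : M →+* T)) =
      P.map (mapRingHom ψ) := by
    rw [← Polynomial.map_mul, hprod, Polynomial.map_map, mapRingHom_comp, hσ]
  have hval : ((P.map (mapRingHom ψ)).map (evalRingHom (algebraMap K T y))).eval
      (algebraMap K T z) = 0 := by
    rw [Polynomial.map_map, eval_map]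
    have h1 : (evalRingHom (algebraMap K T y)).comp (mapRingHom ψ) =
        (algebraMap K T).comp (ev2 k w y) := by
      apply Polynomial.ringHom_ext
      · intro a
        change eval (algebraMap K T y) (map ψ (C a)) = algebraMap K T (eval₂ _ y (C a))
        rw [map_C, eval_C, eval₂_C]
        rfl
      · change eval (algebraMap K T y) (map ψ X) = algebraMap K T (eval₂ _ y X)
        rw [map_X, eval_X, eval₂_X]
    rw [h1, ← hom_eval₂, hPz, map_zero]
  rw [← hprod', Polynomial.map_mul, eval_mul, mul_eq_zero] at hval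
  have hfin : ∀ f0 : Polynomial M[X], f0.Monic →
      f0 ∣ P.map (mapRingHom (algebraMap k[X] M)) → f0.natDegree < P.natDegree →
      ((f0.map (mapRingHom (σ : M →+* T))).map (evalRingHom (algebraMap K T y))).eval
        (algebraMap K T z) = 0 → False := by
    intro f0 hf0m hdvd hlt h0
    refine no_factor hmin hreg (F := f0.map (mapRingHom (σ : M →+* T))) (hf0m.map _)
      (by rw [hf0m.natDegree_map]; exact hlt) ?_ h0
    intro i j
    refine integral_factor ψ hP (hf0m.map _) ?_ i j
    have h1 := Polynomial.map_dvd (mapRingHom (σ : M →+* T)) hdvd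
    rwa [Polynomial.map_map, mapRingHom_comp, hσ] at h1
  have hdf : f0.natDegree = f.natDegree := by rw [← hf0', hf0m.natDegree_map]
  have hdg : g0.natDegree = g.natDegree := by rw [← hg0', hg0m.natDegree_map]
  rcases hval with h | h
  · exact hfin f0 hf0m (Dvd.intro _ hprod) (by omega) h
  · exact hfin g0 hg0m (Dvd.intro _ hprod2) (by omega) h

end Pool.Agent.K7.H3.ZB
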