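import Pool.Agent.K7.H3.ZB.Proj

/-!
# Integrality over the coordinates of a projection
-/

set_option autoImplicit false

open MvPolynomial
open scoped LinearAlgebra.Projectivization

namespace Pool.Agent.K7.H3.ZB

open Pool.Agent.K7.H3.ZC (Spz exists_zero spz_one MultiHomogeneous)

variable {k : Type} [Field k] {r : ℕ} {K : Type} [Field K] [Algebra k K]

/-- **Integrality.** If the linear forms `L i` have no common zero on `X` then the coordinates of the
points of `X` over extension fields are integral over the values of the forms. -/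
theorem integral_of_spz [IsAlgClosed k] {K0 : Type} [Field K0] [Algebra k K0]
    {θ : Fin 1 → Fin (r + 1) → K0} {ι : Type} {L : ι → Fin (r + 1) → k}
    (hL : ∀ v : Fin (r + 1) → k, v ≠ 0 → Spz k θ (fun _ : Fin 1 => v) →
      ∃ i, aeval v (linP (L i)) ≠ 0)
    {ξ : Fin (r + 1) → K} (hξ : ξ ≠ 0) (hspz : Spz k θ (fun _ : Fin 1 => ξ)) (j : Fin (r + 1)) :
    IsIntegral (Algebra.adjoin k (Set.range fun i => aeval ξ (linP (L i)))) (ξ j) := by
  classical
  let s : Set K := Set.range (algebraMap k K) ∪ Set.range fun i => aeval ξ (linP (L i))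
  have hle : ∀ a ∈ Subring.closure s,
      a ∈ Algebra.adjoin k (Set.range fun i => aeval ξ (linP (L i))) := by
    intro a ha
    have h1 : Subring.closure s ≤
        (Algebra.adjoin k (Set.range fun i => aeval ξ (linP (L i)))).toSubring := by
      rw [Subring.closure_le]
      rintro x (⟨c, rfl⟩ | hx)
      · exact (Algebra.adjoin k (Set.range fun i => aeval ξ (linP (L i)))).algebraMap_mem c
      · exact Algebra.subset_adjoin hx
    exact h1 ha
  suffices h : IsIntegral (Subring.closure s) (ξ j) by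
    obtain ⟨p, hp, hp0⟩ := h
    let f : Subring.closure s →+* Algebra.adjoin k (Set.range fun i => aeval ξ (linP (L i))) := {
      toFun := fun a => ⟨a, hle a a.2⟩
      map_one' := rfl
      map_mul' := fun _ _ => rfl
      map_zero' := rfl
      map_add' := fun _ _ => rfl }
    refine ⟨p.map f, hp.map f, ?_⟩
    rw [Polynomial.eval₂_map]
    exact hp0
  by_contra hcon
  obtain ⟨B, hsB, hjB⟩ : ∃ B : ValuationSubring K, s ⊆ B.toSubring ∧ ξ j ∉ B := by
    by_contra hno
    push Not at hno
    apply hcon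
    have h1 : ξ j ∈ (integralClosure (Subring.closure s) K).toSubring := by
      rw [← iInf_valuationSubring_superset, Subring.mem_iInf]
      intro V
      exact hno V.1 V.2
    exact h1
  have hkB : ∀ c : k, algebraMap k K c ∈ B := fun c => hsB (Or.inl ⟨c, rfl⟩)
  have hLB : ∀ i, aeval ξ (linP (L i)) ∈ B := fun i => hsB (Or.inr ⟨i, rfl⟩)
  -- the coordinate of the maximal value
  obtain ⟨c, hc⟩ := Finite.exists_max fun j => B.valuation (ξ j)
  have hc0 : ξ c ≠ 0 := by
    obtain ⟨j', hj'⟩ := Function.ne_iff.1 hξ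
    intro h0
    have h1 := hc j'
    simp only [h0, map_zero] at h1
    exact hj' ((Valuation.zero_iff _).1 (le_antisymm h1 zero_le))
  have hcB : ∀ j, ξ j / ξ c ∈ B := fun j => by
    rw [← B.valuation_le_one_iff, map_div₀]
    exact div_le_one_of_le₀ (hc j) zero_le
  have hc1 : 1 < B.valuation (ξ c) := by
    refine lt_of_lt_of_le ?_ (hc j)
    rw [← not_le, B.valuation_le_one_iff]
    exact hjB
  let η : Fin (r + 1) → B := fun j => ⟨ξ j / ξ c, hcB j⟩
  let fk : k →+* B := {
    toFun := fun a => ⟨algebraMap k K a, hkB a⟩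
    map_one' := Subtype.ext (map_one _)
    map_mul' := fun _ _ => Subtype.ext (map_mul _ _ _)
    map_zero' := Subtype.ext (map_zero _)
    map_add' := fun _ _ => Subtype.ext (map_add _ _ _) }
  let res : B →+* IsLocalRing.ResidueField B := IsLocalRing.residue B
  let Φ : MvPolynomial (Fin (r + 1)) k →+* IsLocalRing.ResidueField B :=
    eval₂Hom (res.comp fk) (fun p => res (η p))
  have hΦ : ∀ G : MvPolynomial (Fin (r + 1)) k, Φ G = res (eval₂ fk η G) := fun G =>
    (MvPolynomial.hom_eval₂ G fk res η).symm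
  have hval : ∀ G : MvPolynomial (Fin (r + 1)) k, ((eval₂ fk η G : B) : K) =
      aeval (fun j => ξ j / ξ c) G := fun G => MvPolynomial.hom_eval₂ G fk B.subtype η
  have hprime : (RingHom.ker Φ).IsPrime := RingHom.ker_isPrime Φ
  obtain ⟨v, hv, -⟩ := exists_zero (RingHom.ker Φ) (g := 1) (by
    rw [RingHom.mem_ker, map_one]
    exact one_ne_zero)
  have hsmul : (fun j => ξ j / ξ c) = (ξ c)⁻¹ • ξ := by
    funext j
    rw [Pi.smul_apply, smul_eq_mul, div_eq_mul_inv, mul_comm]
  obtain ⟨i, hi⟩ := hL v (by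
    intro h0
    have h2 : (X c - 1 : MvPolynomial (Fin (r + 1)) k) ∈ RingHom.ker Φ := by
      rw [RingHom.mem_ker, map_sub, map_one]
      change eval₂ (res.comp fk) (fun p => res (η p)) (X c) - 1 = 0
      rw [eval₂_X]
      have h3 : η c = 1 := Subtype.ext (div_self hc0)
      rw [h3, map_one, sub_self]
    have h4 := hv _ h2
    rw [map_sub, map_one, aeval_X, h0, Pi.zero_apply, zero_sub] at h4
    exact one_ne_zero (neg_eq_zero.1 h4)) (by
    rw [spz_one]
    intro G d hG h0
    apply hv
    have h1 : aeval ξ G = 0 := spz_one.1 hspz G d hG h0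
    have h2 : aeval ((ξ c)⁻¹ • ξ) G = 0 := (ZC.aeval_smul_eq_zero hG (inv_ne_zero hc0)).2 h1
    rw [RingHom.mem_ker, hΦ]
    have h3 : eval₂ fk η G = 0 := by
      apply Subtype.ext
      rw [hval, hsmul, h2]
      rfl
    rw [h3, map_zero])
  apply hi
  apply hv
  rw [RingHom.mem_ker, hΦ]
  change IsLocalRing.residue B _ = 0
  rw [IsLocalRing.residue_eq_zero_iff]
  have h1 : aeval ((ξ c)⁻¹ • ξ) (linP (L i)) = (ξ c)⁻¹ * aeval ξ (linP (L i)) := by
    rw [aeval_linP, aeval_linP, Finset.mul_sum]
    refine Finset.sum_congr rfl fun j _ => ?_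
    rw [Pi.smul_apply, smul_eq_mul]
    ring
  have h2 : ((eval₂ fk η (linP (L i)) : B) : K) ∈ B.nonunits := by
    rw [hval, hsmul, h1, ValuationSubring.mem_nonunits_iff, map_mul, map_inv₀]
    have h3 := (B.valuation_le_one_iff _).2 (hLB i)
    have h4 : (B.valuation (ξ c))⁻¹ < 1 := inv_lt_one_of_one_lt₀ hc1
    exact mul_lt_one_of_lt_of_le h4 h3
  rw [ValuationSubring.mem_nonunits_iff_exists_mem_maximalIdeal] at h2
  obtain ⟨h3, h4⟩ := h2
  exact h4

end Pool.Agent.K7.H3.ZB
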