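import Pool.Agent.K7.H3.ZB.Zar
import Pool.Agent.K7.H3.ZC.Move

/-!
# The theorem of Matsusaka and Zariski on pencils, II
-/

set_option autoImplicit false

open Polynomial
open scoped IntermediateField.algebraAdjoinAdjoin

namespace Pool.Agent.K7.H3.ZB

open Pool.Agent.K7.H3.ZC (rk rk_mono rk_le_of_isAlgebraic)

variable {k K : Type} [Field k] [Field K] [Algebra k K]

theorem isAlgebraic_iff_poly {s β : K} (hs : Transcendental k s) :
    IsAlgebraic (Algebra.adjoin k {s}) β ↔
      ∃ Q : k[X][X], Q ≠ 0 ∧ Q.eval₂ (aeval s : k[X] →ₐ[k] K).toRingHom β = 0 := by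
  have hmem : ∀ p : k[X], aeval s p ∈ Algebra.adjoin k {s} := fun p => by
    rw [Algebra.adjoin_singleton_eq_range_aeval]
    exact ⟨p, rfl⟩
  let π : k[X] →+* Algebra.adjoin k {s} := ((aeval s : k[X] →ₐ[k] K).codRestrict _ hmem).toRingHom
  have hπs : Function.Surjective π := by
    rintro ⟨x, hx⟩
    rw [Algebra.adjoin_singleton_eq_range_aeval] at hx
    obtain ⟨p, hp⟩ := hx
    exact ⟨p, Subtype.ext hp⟩
  have hπi : Function.Injective π := by
    intro p q h
    rw [← sub_eq_zero]
    apply (transcendental_iff.1 hs)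
    have h1 : aeval s p = aeval s q := congrArg Subtype.val h
    rw [map_sub, h1, sub_self]
  have hcomp : (algebraMap (Algebra.adjoin k {s}) K).comp π =
      (aeval s : k[X] →ₐ[k] K).toRingHom := rfl
  constructor
  · rintro ⟨P, hP, hP0⟩
    obtain ⟨Q, rfl⟩ := Polynomial.map_surjective π hπs P
    refine ⟨Q, fun h0 => hP (by rw [h0, Polynomial.map_zero]), ?_⟩
    rw [aeval_def, eval₂_map, hcomp] at hP0
    exact hP0
  · rintro ⟨Q, hQ, hQ0⟩
    refine ⟨Q.map π, (Polynomial.map_ne_zero_iff hπi).2 hQ, ?_⟩
    rw [aeval_def, eval₂_map, hcomp]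
    exact hQ0

theorem isAlgebraic_adjoin_iff {S : Set K} {β : K} :
    IsAlgebraic (IntermediateField.adjoin k S) β ↔ IsAlgebraic (Algebra.adjoin k S) β :=
  (IsFractionRing.isAlgebraic_iff (Algebra.adjoin k S) (IntermediateField.adjoin k S) K).symm

/-- **Matsusaka, Zariski.** For the general member of a pencil, the field of constants does not
grow. -/
theorem exists_regular [IsAlgClosed k] [CharZero k] {u v : K}
    (hrk : 2 ≤ rk k ({u, v} : Set K)) [FiniteDimensional (IntermediateField.adjoin k {u, v}) K] :
    ∃ c : k, ∀ β : K, (∃ Q : k[X][X], Q ≠ 0 ∧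
        Q.eval₂ (aeval (u + algebraMap k K c * v) : k[X] →ₐ[k] K).toRingHom β = 0) →
      ∃ p q : k[X], q ≠ 0 ∧ β * aeval (u + algebraMap k K c * v) q =
        aeval (u + algebraMap k K c * v) p := by
  classical
  have : Infinite k := IsAlgClosed.instInfinite
  have : CharZero K := charZero_of_injective_algebraMap (algebraMap k K).injective
  let w : k → K := fun c => u + algebraMap k K c * v
  let E := IntermediateField.adjoin k ({u, v} : Set K)
  obtain ⟨F, hF, hFt⟩ : ∃ F : k → IntermediateField k K,
      (∀ c β, β ∈ F c ↔ IsAlgebraic (Algebra.adjoin k {w c}) β) ∧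
      ∀ (c : k) (s : K), IsAlgebraic (F c) s → IsAlgebraic (Algebra.adjoin k {w c}) s := by
    refine ⟨fun c => (algebraicClosure (IntermediateField.adjoin k {w c}) K).restrictScalars k,
      fun c β => ?_, fun c s h1 => ?_⟩
    · rw [← isAlgebraic_adjoin_iff]
      exact mem_algebraicClosure_iff
    · have h2 : Algebra.IsAlgebraic (IntermediateField.adjoin k {w c})
          (algebraicClosure (IntermediateField.adjoin k {w c}) K) := inferInstance
      have h3 : IsAlgebraic (algebraicClosure (IntermediateField.adjoin k {w c}) K) s := h1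
      rw [← isAlgebraic_adjoin_iff]
      exact h3.restrictScalars _
  have hfin : Finite (IntermediateField E K) :=
    (Field.exists_primitive_element_iff_finite_intermediateField E K).1
      ⟨inferInstance, Field.exists_primitive_element E K⟩
  obtain ⟨c, c', hcc, hG⟩ := Finite.exists_ne_map_eq_of_infinite
    (fun c => IntermediateField.adjoin E (F c : Set K))
  have hd : algebraMap k K c - algebraMap k K c' ≠ 0 := by
    rw [← map_sub]
    exact (_root_.map_ne_zero _).2 (sub_ne_zero.2 hcc)
  -- `u` and `v` in terms of the pencils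
  have hv : v = (w c - w c') * (algebraMap k K (c - c'))⁻¹ := by
    rw [map_sub]
    field_simp
    ring
  have hu : u = w c - algebraMap k K c * v := by
    change u = u + algebraMap k K c * v - algebraMap k K c * v
    ring
  have hw1 : ∀ c : k, rk k ({w c} : Set K) ≤ 1 := fun c => by
    refine ((AlgebraicIndependent.matroid k K).eRk_le_encard {w c}).trans ?_
    rw [Set.encard_singleton]
  have hnot : ∀ S : Set K, rk k S ≤ 1 → IsAlgebraic (Algebra.adjoin k S) (w c) →
      IsAlgebraic (Algebra.adjoin k S) (w c') → False := by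
    intro S hS h1 h2
    have hk : ∀ a : k, IsAlgebraic (Algebra.adjoin k S) (algebraMap k K a) := fun a =>
      isAlgebraic_algebraMap (R := Algebra.adjoin k S) (A := K)
        (algebraMap k (Algebra.adjoin k S) a)
    have h3 : IsAlgebraic (Algebra.adjoin k S) v := by
      rw [hv]
      exact (h1.sub h2).mul (hk _).inv
    have h4 : IsAlgebraic (Algebra.adjoin k S) u := by
      rw [hu]
      exact h1.sub ((hk _).mul h3)
    have h5 : rk k ({u, v} : Set K) ≤ rk k S := by
      apply rk_le_of_isAlgebraic
      rintro x (rfl | rfl)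
      · exact h4
      · exact h3
    have h6 := (hrk.trans h5).trans hS
    norm_num at h6
  have hself : ∀ c, w c ∈ Algebra.adjoin k {w c} := fun c => Algebra.self_mem_adjoin_singleton k _
  have halg : ∀ c, IsAlgebraic (Algebra.adjoin k {w c}) (w c) := fun c =>
    isAlgebraic_algebraMap (R := Algebra.adjoin k {w c}) (A := K) ⟨w c, hself c⟩
  -- `w c'` is transcendental over `F c`
  have htr : Transcendental (F c) (w c') := by
    intro h1
    exact hnot {w c} (hw1 c) (halg c) (hFt c _ h1)
  have htrk : Transcendental k (w c') := by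
    intro h1
    exact htr (h1.tower_top (F c))
  refine ⟨c', fun β hβ => ?_⟩
  have hβ' : ∃ Q : k[X][X], Q ≠ 0 ∧ Q.eval₂ (aeval (w c') : k[X] →ₐ[k] K).toRingHom β = 0 := hβ
  have h1 : IsAlgebraic (Algebra.adjoin k {w c'}) β := (isAlgebraic_iff_poly htrk).2 hβ'
  suffices h2 : β ∈ IntermediateField.adjoin (F c) {w c'} from mem_of_rational htr h2 hβ'
  have h2 : β ∈ IntermediateField.adjoin E (F c : Set K) := by
    have h3 : β ∈ IntermediateField.adjoin E (F c' : Set K) :=
      IntermediateField.subset_adjoin _ _ ((hF c' β).2 h1)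
    have h4 : IntermediateField.adjoin E (F c : Set K) = IntermediateField.adjoin E (F c' : Set K) :=
      hG
    rwa [h4]
  have h3 : β ∈ (IntermediateField.adjoin E (F c : Set K)).restrictScalars k := h2
  rw [IntermediateField.restrictScalars_adjoin] at h3
  obtain ⟨T, hT⟩ : ∃ T : IntermediateField k K,
      T = (IntermediateField.adjoin (F c) {w c'}).restrictScalars k := ⟨_, rfl⟩
  have hFc : ∀ x ∈ F c, x ∈ T := fun x hx => by
    rw [hT]
    exact (IntermediateField.adjoin (F c) {w c'}).algebraMap_mem ⟨x, hx⟩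
  have h6 : w c' ∈ T := by
    rw [hT]
    exact IntermediateField.mem_adjoin_simple_self (F c) (w c')
  have h11 : β ∈ T := by
    have h5 : w c ∈ T := hFc _ ((hF c _).2 (halg c))
    have h7 : ∀ a : k, algebraMap k K a ∈ T := fun a => T.algebraMap_mem a
    have h8 : v ∈ T := by
      rw [hv]
      exact mul_mem (sub_mem h5 h6) (inv_mem (h7 _))
    have h9 : u ∈ T := by
      rw [hu]
      exact sub_mem h5 (mul_mem (h7 _) h8)
    have h10 : E ≤ T := by
      apply IntermediateField.adjoin_le_iff.2
      rintro x (rfl | rfl)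
      · exact h9
      · exact h8
    have h4 : (E : Set K) ∪ F c ⊆ T := by
      rintro x (hx | hx)
      · exact h10 hx
      · exact hFc _ hx
    exact (IntermediateField.adjoin_le_iff.2 h4) h3
  rw [hT] at h11
  exact h11

end Pool.Agent.K7.H3.ZB
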