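import Pool.Agent.K7.H3.ZB.Spec
import Pool.Agent.K7.H3.ZB.Mats

/-!
# Primitive elements and ranks
-/

set_option autoImplicit false

open MvPolynomial

namespace Pool.Agent.K7.H3.ZB

open Pool.Agent.K7.H3.ZC (rk rk_mono rk_le_of_isAlgebraic)

variable {k : Type} [Field k] {K : Type} [Field K] [Algebra k K] {r : ℕ}

theorem rk_singleton (x : K) : rk k ({x} : Set K) ≤ 1 := by
  refine ((AlgebraicIndependent.matroid k K).eRk_le_encard {x}).trans ?_
  rw [Set.encard_singleton]

/-- Independence in terms of ranks. -/
theorem not_alg_of_rk {u v : K} (hrk : 2 ≤ rk k ({u, v} : Set K)) {w : K}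
    (hu : IsAlgebraic (Algebra.adjoin k {w}) u) (hv : IsAlgebraic (Algebra.adjoin k {w}) v) :
    False := by
  have h5 : rk k ({u, v} : Set K) ≤ rk k {w} := by
    apply rk_le_of_isAlgebraic
    rintro x (rfl | rfl)
    · exact hu
    · exact hv
  have h6 := (hrk.trans h5).trans (rk_singleton w)
  norm_num at h6

theorem isAlgebraic_const {S : Set K} (a : k) : IsAlgebraic (Algebra.adjoin k S)
    (algebraMap k K a) :=
  isAlgebraic_algebraMap (R := Algebra.adjoin k S) (A := K)
    (algebraMap k (Algebra.adjoin k S) a)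

theorem isAlgebraic_self {x : K} : IsAlgebraic (Algebra.adjoin k {x}) x :=
  isAlgebraic_algebraMap (R := Algebra.adjoin k {x}) (A := K)
    ⟨x, Algebra.self_mem_adjoin_singleton k x⟩

theorem injective_aeval {u v : K} (hrk : 2 ≤ rk k ({u, v} : Set K)) (c : k) :
    Function.Injective (Polynomial.aeval (u + algebraMap k K c * v) : Polynomial k →ₐ[k] K) := by
  have h1 : Transcendental k (u + algebraMap k K c * v) := by
    intro h
    apply not_alg_of_rk hrk (w := v) ?_ isAlgebraic_self
    have h2 : IsAlgebraic (Algebra.adjoin k {v}) (u + algebraMap k K c * v) :=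
      h.extendScalars (algebraMap k (Algebra.adjoin k {v})).injective
    have h3 := h2.sub ((isAlgebraic_const (S := {v}) c).mul isAlgebraic_self)
    rwa [add_sub_cancel_right] at h3
  exact transcendental_iff_injective.1 h1

theorem injective_ev2 {u v : K} (hrk : 2 ≤ rk k ({u, v} : Set K)) (c : k) :
    Function.Injective (ev2 k (u + algebraMap k K c * v) v) := by
  rw [injective_iff_map_eq_zero]
  intro F hF
  by_contra hne
  have h1 : Transcendental k (u + algebraMap k K c * v) :=
    transcendental_iff_injective.2 (injective_aeval hrk c)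
  have h2 : IsAlgebraic (Algebra.adjoin k {u + algebraMap k K c * v}) v :=
    (isAlgebraic_iff_poly h1).2 ⟨F, hne, hF⟩
  refine not_alg_of_rk hrk ?_ h2
  have h3 := (isAlgebraic_self (k := k) (x := u + algebraMap k K c * v)).sub
    ((isAlgebraic_const c).mul h2)
  rwa [add_sub_cancel_right] at h3

/-- Integral elements of `k(w)` are polynomials. -/
theorem mem_poly_of_integral {w β : K}
    (hw : Function.Injective (Polynomial.aeval w : Polynomial k →ₐ[k] K))
    (hβ : ∃ m : Polynomial (Polynomial k), m.Monic ∧
      m.eval₂ (Polynomial.aeval w : Polynomial k →ₐ[k] K).toRingHom β = 0)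
    (h : ∃ p q : Polynomial k, q ≠ 0 ∧ β * Polynomial.aeval w q = Polynomial.aeval w p) :
    ∃ p : Polynomial k, Polynomial.aeval w p = β := by
  obtain ⟨m, hm, hm0⟩ := hβ
  obtain ⟨p, q, hq, hpq⟩ := h
  let f : Polynomial k →+* K := (Polynomial.aeval w : Polynomial k →ₐ[k] K).toRingHom
  let g : FractionRing (Polynomial k) →+* K := IsFractionRing.lift (g := f) hw
  have hg : ∀ a, g (algebraMap (Polynomial k) (FractionRing (Polynomial k)) a) = f a := fun a =>
    IsFractionRing.lift_algebraMap hw a
  let b : FractionRing (Polynomial k) :=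
    algebraMap (Polynomial k) (FractionRing (Polynomial k)) p /
      algebraMap (Polynomial k) (FractionRing (Polynomial k)) q
  have hq0 : f q ≠ 0 := by
    intro h0
    apply hq
    apply hw
    rw [map_zero]
    exact h0
  have hb : g b = β := by
    change g (_ / _) = β
    rw [map_div₀, hg, hg, div_eq_iff hq0]
    exact hpq.symm
  have hint : IsIntegral (Polynomial k) b := by
    refine ⟨m, hm, ?_⟩
    apply g.injective
    rw [map_zero, Polynomial.hom_eval₂, hb]
    have h1 : g.comp (algebraMap (Polynomial k) (FractionRing (Polynomial k))) = f := by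
      apply RingHom.ext
      exact hg
    rw [h1]
    exact hm0
  obtain ⟨a, ha⟩ := IsIntegrallyClosed.isIntegral_iff.1 hint
  refine ⟨a, ?_⟩
  rw [← hb, ← ha, hg]
  rfl

/-- Finiteness of the extension. -/
theorem finite_of_gen' {ξ : Fin (r + 1) → K}
    (hgen : IntermediateField.adjoin k {x | ∃ j l, x = ξ j / ξ l} = ⊤) (E : IntermediateField k K)
    (hint : ∀ j, IsAlgebraic E (ξ j)) : FiniteDimensional E K := by
  have h1 : FiniteDimensional E (IntermediateField.adjoin E (Set.range ξ)) := by
    apply IntermediateField.finiteDimensional_adjoin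
    rintro x ⟨j, rfl⟩
    exact (hint j).isIntegral
  have h2 : IntermediateField.adjoin E (Set.range ξ) = ⊤ := by
    obtain ⟨T, hT⟩ : ∃ T : IntermediateField k K,
      T = (IntermediateField.adjoin E (Set.range ξ)).restrictScalars k := ⟨_, rfl⟩
    have h3 : ∀ j, ξ j ∈ T := fun j => by
      rw [hT]
      exact IntermediateField.subset_adjoin E (Set.range ξ) ⟨j, rfl⟩
    have h4 : T = ⊤ := by
      rw [eq_top_iff, ← hgen]
      apply IntermediateField.adjoin_le_iff.2
      rintro x ⟨j, l, rfl⟩
      exact div_mem (h3 j) (h3 l)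
    rw [eq_top_iff]
    intro x _
    have h5 : x ∈ T := by
      rw [h4]
      exact IntermediateField.mem_top
    rw [hT] at h5
    exact h5
  rw [h2] at h1
  exact IntermediateField.topEquiv.toLinearEquiv.finiteDimensional

theorem finite_of_gen {ξ : Fin (r + 1) → K}
    (hgen : IntermediateField.adjoin k {x | ∃ j l, x = ξ j / ξ l} = ⊤) {S : Set K}
    (hint : ∀ j, IsAlgebraic (Algebra.adjoin k S) (ξ j)) :
    FiniteDimensional (IntermediateField.adjoin k S) K :=
  finite_of_gen' hgen _ fun j => isAlgebraic_adjoin_iff.2 (hint j)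

end Pool.Agent.K7.H3.ZB
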