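import Pool.Agent.K7.H3.ZB.Prim

/-!
# Primitive elements and denominators
-/

set_option autoImplicit false

open MvPolynomial

namespace Pool.Agent.K7.H3.ZB

variable {k : Type} [Field k] {K : Type} [Field K] [Algebra k K] {r : ℕ}

/-- A linear combination of the coordinates is a primitive element. -/
theorem exists_primitive_lin [Infinite k] [CharZero k] {ξ : Fin (r + 1) → K}
    (hgen : IntermediateField.adjoin k {x | ∃ j l, x = ξ j / ξ l} = ⊤) (E : IntermediateField k K)
    [FiniteDimensional E K] :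
    ∃ e : Fin (r + 1) → k, IntermediateField.adjoin E {aeval ξ (linP e)} = ⊤ := by
  classical
  have : CharZero K := charZero_of_injective_algebraMap (algebraMap k K).injective
  have hfin : Finite (IntermediateField E K) :=
    (Field.exists_primitive_element_iff_finite_intermediateField E K).1
      ⟨inferInstance, Field.exists_primitive_element E K⟩
  let V : Submodule k K := Submodule.span k (Set.range ξ)
  let f : IntermediateField E K → Submodule k V := fun M =>
    (M.restrictScalars k).toSubalgebra.toSubmodule.comap V.subtype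
  have hf : ∀ (M : IntermediateField E K) (x : V), x ∈ f M ↔ (x : K) ∈ M := fun M x => Iff.rfl
  let s : Finset (Submodule k V) := ((Set.toFinite {M : IntermediateField E K | M ≠ ⊤}).toFinset).image f
  have hs : ⊤ ∉ s := by
    intro h
    obtain ⟨M, hM, hMf⟩ := Finset.mem_image.1 h
    rw [Set.Finite.mem_toFinset] at hM
    apply hM
    have h1 : ∀ j, ξ j ∈ M := fun j => by
      have h2 : (⟨ξ j, Submodule.subset_span ⟨j, rfl⟩⟩ : V) ∈ f M := by
        rw [hMf]
        exact Submodule.mem_top
      exact (hf M _).1 h2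
    have h3 : M.restrictScalars k = ⊤ := by
      rw [eq_top_iff, ← hgen]
      apply IntermediateField.adjoin_le_iff.2
      rintro x ⟨j, l, rfl⟩
      exact div_mem (h1 j) (h1 l)
    rw [eq_top_iff]
    intro x _
    have h5 : x ∈ M.restrictScalars k := by
      rw [h3]
      exact IntermediateField.mem_top
    exact h5
  have hne := Subspace.biUnion_ne_univ_of_top_notMem hs
  obtain ⟨x, hx⟩ := (Set.ne_univ_iff_exists_notMem _).1 hne
  obtain ⟨e, he⟩ := (Submodule.mem_span_range_iff_exists_fun k).1 x.2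
  refine ⟨e, ?_⟩
  have he' : aeval ξ (linP e) = (x : K) := by
    rw [aeval_linP, ← he]
    refine Finset.sum_congr rfl fun j _ => ?_
    rw [Algebra.smul_def]
  rw [he']
  by_contra hcon
  apply hx
  rw [Set.mem_iUnion₂]
  refine ⟨f (IntermediateField.adjoin E {(x : K)}), Finset.mem_image.2 ⟨_, ?_, rfl⟩, ?_⟩
  · rw [Set.Finite.mem_toFinset]
    exact hcon
  · change x ∈ f _
    rw [hf]
    exact IntermediateField.mem_adjoin_simple_self E (x : K)

/-- Integrality over the polynomials in `w` and `y`. -/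
theorem integral_ev2 {w y β : K} {A : Subalgebra k K} (hA : ∀ a ∈ A, ∃ F, ev2 k w y F = a)
    (hβ : IsIntegral A β) : ∃ m : Polynomial (Polynomial (Polynomial k)), m.Monic ∧
      m.eval₂ (ev2 k w y) β = 0 := by
  obtain ⟨p, hp, hp0⟩ := hβ
  have h1 : p.map (algebraMap A K) ∈ Polynomial.lifts (ev2 k w y) := by
    rw [Polynomial.lifts_iff_coeff_lifts]
    intro n
    rw [Polynomial.coeff_map]
    exact hA _ (p.coeff n).2
  obtain ⟨q, hq, -, hqm⟩ := Polynomial.lifts_and_natDegree_eq_and_monic h1 (hp.map _)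
  refine ⟨q, hqm, ?_⟩
  rw [← Polynomial.eval_map, hq, Polynomial.eval_map]
  exact hp0

/-- Denominators. -/
theorem clear_denoms {w y z : K} (E : IntermediateField k K)
    (hE : E = IntermediateField.adjoin k {w, y}) [FiniteDimensional E K]
    (hz : IntermediateField.adjoin E {z} = ⊤) (x : K) :
    ∃ (D : Polynomial (Polynomial k)) (Q : Polynomial (Polynomial (Polynomial k))),
      ev2 k w y D ≠ 0 ∧ Q.eval₂ (ev2 k w y) z = ev2 k w y D * x := by
  have hrange : ∀ a ∈ Algebra.adjoin k {w, y}, ∃ F, ev2 k w y F = a := by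
    intro a ha
    induction ha using Algebra.adjoin_induction with
    | mem x hx =>
      rcases hx with rfl | rfl
      · exact ⟨Polynomial.C Polynomial.X, by simp [ev2]⟩
      · exact ⟨Polynomial.X, by simp [ev2]⟩
    | algebraMap c => exact ⟨Polynomial.C (Polynomial.C c), by simp [ev2]⟩
    | add x y _ _ hx hy =>
      obtain ⟨F, rfl⟩ := hx
      obtain ⟨F', rfl⟩ := hy
      exact ⟨F + F', map_add _ _ _⟩
    | mul x y _ _ hx hy =>
      obtain ⟨F, rfl⟩ := hx
      obtain ⟨F', rfl⟩ := hy
      exact ⟨F * F', map_mul _ _ _⟩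
  have hx : x ∈ (IntermediateField.adjoin E {z}).toSubalgebra := by
    rw [hz]
    trivial
  have hzalg : IsIntegral E z := IsIntegral.of_finite E z
  rw [IntermediateField.adjoin_simple_toSubalgebra_of_isAlgebraic hzalg.isAlgebraic] at hx
  induction hx using Algebra.adjoin_induction with
  | mem x hx =>
    rw [Set.mem_singleton_iff] at hx
    subst hx
    exact ⟨1, Polynomial.X, by rw [map_one]; exact one_ne_zero, by
      rw [Polynomial.eval₂_X, map_one, one_mul]⟩
  | algebraMap c =>
    have hc : (c : K) ∈ IntermediateField.adjoin k {w, y} := by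
      rw [← hE]
      exact c.2
    obtain ⟨a, ha, b, hb, hab⟩ := IntermediateField.mem_adjoin_iff_div.1 hc
    obtain ⟨F, rfl⟩ := hrange a ha
    obtain ⟨G, rfl⟩ := hrange b hb
    by_cases hG : ev2 k w y G = 0
    · refine ⟨1, 0, by rw [map_one]; exact one_ne_zero, ?_⟩
      rw [Polynomial.eval₂_zero]
      change 0 = _ * (c : K)
      rw [hab, hG, div_zero, mul_zero]
    · refine ⟨G, Polynomial.C F, hG, ?_⟩
      rw [Polynomial.eval₂_C]
      change _ = _ * (c : K)
      rw [hab, mul_div_cancel₀ _ hG]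
  | add x x' _ _ hx hx' =>
    obtain ⟨D, Q, hD, hQ⟩ := hx
    obtain ⟨D', Q', hD', hQ'⟩ := hx'
    refine ⟨D * D', Polynomial.C D' * Q + Polynomial.C D * Q', ?_, ?_⟩
    · rw [map_mul]
      exact mul_ne_zero hD hD'
    · rw [Polynomial.eval₂_add, Polynomial.eval₂_mul, Polynomial.eval₂_mul, Polynomial.eval₂_C,
        Polynomial.eval₂_C, hQ, hQ', map_mul]
      ring
  | mul x x' _ _ hx hx' =>
    obtain ⟨D, Q, hD, hQ⟩ := hx
    obtain ⟨D', Q', hD', hQ'⟩ := hx'
    refine ⟨D * D', Q * Q', ?_, ?_⟩
    · rw [map_mul]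
      exact mul_ne_zero hD hD'
    · rw [Polynomial.eval₂_mul, hQ, hQ', map_mul]
      ring

/-- A common denominator. -/
theorem common_denom {w y z : K} {ξ : Fin (r + 1) → K}
    (h : ∀ j, ∃ (D : Polynomial (Polynomial k)) (Q : Polynomial (Polynomial (Polynomial k))),
      ev2 k w y D ≠ 0 ∧ Q.eval₂ (ev2 k w y) z = ev2 k w y D * ξ j) :
    ∃ (D : Polynomial (Polynomial k)) (Q : Fin (r + 1) → Polynomial (Polynomial (Polynomial k))),
      ev2 k w y D ≠ 0 ∧ ∀ j, (Q j).eval₂ (ev2 k w y) z = ev2 k w y D * ξ j := by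
  classical
  choose D Q hD hQ using h
  refine ⟨∏ j, D j, fun j => Polynomial.C (∏ i ∈ Finset.univ.erase j, D i) * Q j, ?_, fun j => ?_⟩
  · rw [map_prod]
    exact Finset.prod_ne_zero_iff.2 fun j _ => hD j
  · rw [Polynomial.eval₂_mul, Polynomial.eval₂_C, hQ, ← mul_assoc, ← map_mul, mul_comm _ (D j),
      Finset.mul_prod_erase _ _ (Finset.mem_univ j)]

end Pool.Agent.K7.H3.ZB
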