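import Pool.Agent.K7.H3.ZR.Ultra
import Pool.Agent.K7.H3.ZN.Inter

/-!
# Projections
-/

set_option autoImplicit false

open MvPolynomial
open scoped LinearAlgebra.Projectivization

namespace Pool.Agent.K7.H3.ZB

open Pool.Agent.K7.H3.ZR (UP upHom upHom_eq_zero aeval_upHom)
open Pool.Agent.K7.H3.ZN (VarData)
open Pool.Agent.K7.H3.ZC (Spz rk rk_mono rk_union_le rk_le_of_isAlgebraic isAlgebraic_mem tt coe_tt
  ES ES_singleton rank_point exists_zero spz_one exists_chart aeval_smul_eq_zero)

variable {k : Type} [Field k] {r : ℕ}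

/-- A linear form. -/
noncomputable def linP (l : Fin (r + 1) → k) : MvPolynomial (Fin (r + 1)) k :=
  ∑ j, C (l j) * X j

theorem linP_homogeneous (l : Fin (r + 1) → k) : (linP l).IsHomogeneous 1 := by
  refine IsHomogeneous.sum _ _ _ fun j _ => ?_
  simpa using (isHomogeneous_C (Fin (r + 1)) (l j)).mul (isHomogeneous_X k j)

theorem aeval_linP {A : Type} [CommRing A] [Algebra k A] (l : Fin (r + 1) → k)
    (x : Fin (r + 1) → A) : aeval x (linP l) = ∑ j, algebraMap k A (l j) * x j := by
  rw [linP, map_sum]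
  refine Finset.sum_congr rfl fun j _ => ?_
  rw [map_mul, aeval_C, aeval_X]

/-- An ultrafilter of generic tuples. -/
theorem exists_ultra_generic [Infinite k] (σ : Type) :
    ∃ U : Ultrafilter (σ → k), ∀ F : MvPolynomial σ k, F ≠ 0 →
      ∀ᶠ a in (U : Filter (σ → k)), aeval a F ≠ 0 := by
  classical
  let good : Set (Set (σ → k)) := {A | ∃ F : MvPolynomial σ k, F ≠ 0 ∧ A = {a | aeval a F ≠ 0}}
  have hfin : ∀ T : Finset (Set (σ → k)), (T : Set (Set (σ → k))) ⊆ good →
      ∃ F : MvPolynomial σ k, F ≠ 0 ∧ {a : σ → k | aeval a F ≠ 0} ⊆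
        ⋂₀ (T : Set (Set (σ → k))) := by
    intro T
    induction T using Finset.induction_on with
    | empty =>
      intro _
      exact ⟨1, one_ne_zero, by simp⟩
    | insert A T _ ih =>
      intro hT
      rw [Finset.coe_insert, Set.insert_subset_iff] at hT
      obtain ⟨F, hF, hFT⟩ := ih hT.2
      obtain ⟨F', hF', rfl⟩ := hT.1
      refine ⟨F' * F, mul_ne_zero hF' hF, ?_⟩
      intro a ha
      change aeval a (F' * F) ≠ 0 at ha
      rw [map_mul] at ha
      rw [Finset.coe_insert, Set.sInter_insert]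
      exact ⟨left_ne_zero_of_mul ha, hFT (right_ne_zero_of_mul ha)⟩
  obtain ⟨U, hU⟩ := Ultrafilter.exists_ultrafilter_of_finite_inter_nonempty good (by
    intro T hT
    obtain ⟨F, hF, hFT⟩ := hfin T hT
    obtain ⟨a, ha⟩ : ∃ a : σ → k, aeval a F ≠ 0 := by
      by_contra hcon
      push Not at hcon
      apply hF
      apply MvPolynomial.funext
      intro a
      rw [map_zero]
      exact hcon a
    exact ⟨a, hFT ha⟩)
  exact ⟨U, fun F hF => hU ⟨F, hF, rfl⟩⟩

variable {X : Set (ℙ k (Fin (r + 1) → k))} {K0 : Type} [Field K0] [Algebra k K0]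
  {θ : Fin 1 → Fin (r + 1) → K0} {n : ℕ}

/-- **Projections**: there are `n + 1` linear forms without common zeros on a variety of
dimension `n`. -/
theorem exists_projection [Infinite k] (hX : VarData k X K0 θ n) :
    ∃ L : Fin (n + 1) → Fin (r + 1) → k, ∀ x ∈ X, ∃ i, aeval x.rep (linP (L i)) ≠ 0 := by
  classical
  by_contra hcon
  push Not at hcon
  obtain ⟨U, hU⟩ := exists_ultra_generic (k := k) (Fin (n + 1) × Fin (r + 1))
  choose x hxX hx using fun a : Fin (n + 1) × Fin (r + 1) → k => hcon fun i j => a (i, j)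
  let α : Fin (n + 1) × Fin (r + 1) → UP k U := fun s => upHom k U (fun a => a s)
  let ρ : Fin (r + 1) → UP k U := fun j => upHom k U (fun a => (x a).rep j)
  have hα : AlgebraicIndependent k α := by
    rw [algebraicIndependent_iff]
    intro F hF
    by_contra hne
    have h1 : aeval α F = upHom k U (fun a => aeval a F) :=
      aeval_upHom U (fun s => fun a => a s) F
    rw [h1, upHom_eq_zero] at hF
    obtain ⟨a, ha1, ha2⟩ := ((hU F hne).and hF).exists
    exact ha1 ha2
  have hρ0 : ρ ≠ 0 := by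
    intro h0
    have h1 : ∀ j, ∀ᶠ a in (U : Filter _), (x a).rep j = 0 := fun j =>
      (upHom_eq_zero U).1 (congrFun h0 j)
    obtain ⟨a, ha⟩ := (Filter.eventually_all.2 h1).exists
    exact (x a).rep_nonzero (funext ha)
  obtain ⟨b, hb⟩ := Function.ne_iff.1 hρ0
  have hb' : ρ b ≠ 0 := hb
  have hspz : Spz k θ (fun _ : Fin 1 => ρ) := by
    rw [spz_one]
    intro h e hh h0
    have h1 : aeval ρ h = upHom k U (fun a => aeval (x a).rep h) :=
      aeval_upHom U (fun j => fun a => (x a).rep j) h
    rw [h1, upHom_eq_zero]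
    refine Filter.Eventually.of_forall fun a => ?_
    exact spz_one.1 ((hX.mem _).1 (hxX a)) h e hh h0
  have hlin : ∀ i, ∑ j, α (i, j) * ρ j = 0 := by
    intro i
    have h1 : ∑ j, α (i, j) * ρ j = upHom k U (fun a => ∑ j, a (i, j) * (x a).rep j) := by
      have h2 : (fun a : Fin (n + 1) × Fin (r + 1) → k => ∑ j, a (i, j) * (x a).rep j) =
          ∑ j, (fun a => a (i, j)) * (fun a => (x a).rep j) := by
        funext a
        rw [Finset.sum_apply]
        rfl
      rw [h2, map_sum]
      refine Finset.sum_congr rfl fun j _ => ?_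
      rw [map_mul]
    rw [h1, upHom_eq_zero]
    refine Filter.Eventually.of_forall fun a => ?_
    have h3 := hx a i
    rw [aeval_linP] at h3
    exact h3
  -- ranks
  have h1 := (rank_point hX.gen hX.tr (i := (0 : Fin 1)) (ξ := fun _ => ρ) (b := fun _ => b) hspz
    hb').1
  have h2 : rk k (ES (fun _ => b) (fun _ => ρ) ({0} : Finset (Fin 1))) ≤ n := by
    rw [← coe_tt]
    exact_mod_cast h1
  let T : Set (UP k U) := (fun s => α s) '' ((Finset.univ ×ˢ Finset.univ.erase b :
    Finset (Fin (n + 1) × Fin (r + 1))) : Set (Fin (n + 1) × Fin (r + 1)))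
  have h3 : rk k T ≤ ((n + 1) * r : ℕ) := by
    refine ((AlgebraicIndependent.matroid k (UP k U)).eRk_le_encard T).trans ?_
    refine (Set.encard_image_le _ _).trans ?_
    rw [Set.encard_coe_eq_coe_finsetCard, Finset.card_product, Finset.card_univ, Fintype.card_fin,
      Finset.card_erase_of_mem (Finset.mem_univ b), Finset.card_univ, Fintype.card_fin]
    rfl
  have h4 : rk k (Set.range α) ≤ rk k (ES (fun _ => b) (fun _ => ρ) ({0} : Finset (Fin 1)) ∪ T) := by
    apply rk_le_of_isAlgebraic
    rintro x ⟨⟨i, j⟩, rfl⟩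
    by_cases hj : j = b
    · subst hj
      have h5 : α (i, j) = - ∑ j' ∈ Finset.univ.erase j, α (i, j') * (ρ j' / ρ j) := by
        have h6 := hlin i
        rw [← Finset.add_sum_erase _ _ (Finset.mem_univ j)] at h6
        have h7 : α (i, j) = (-∑ j' ∈ Finset.univ.erase j, α (i, j') * ρ j') / ρ j := by
          rw [eq_div_iff hb']
          linear_combination h6
        rw [h7, neg_div, Finset.sum_div]
        congr 1
        refine Finset.sum_congr rfl fun j' _ => ?_
        rw [mul_div_assoc]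
      rw [h5]
      have h8 : (∑ j' ∈ Finset.univ.erase j, α (i, j') * (ρ j' / ρ j)) ∈
          Subalgebra.algebraicClosure (Algebra.adjoin k
            (ES (fun _ => j) (fun _ => ρ) ({0} : Finset (Fin 1)) ∪ T)) (UP k U) := by
        refine sum_mem fun j' hj' => mul_mem ?_ ?_
        · exact isAlgebraic_mem (Or.inr ⟨(i, j'), Finset.mem_coe.2 (Finset.mem_product.2
            ⟨Finset.mem_univ _, hj'⟩), rfl⟩)
        · exact isAlgebraic_mem (Or.inl ⟨0, Finset.mem_singleton_self 0, j', rfl⟩)
      exact (neg_mem h8)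
    · exact isAlgebraic_mem (Or.inr ⟨(i, j), Finset.mem_coe.2 (Finset.mem_product.2
            ⟨Finset.mem_univ _, Finset.mem_erase.2 ⟨hj, Finset.mem_univ _⟩⟩), rfl⟩)
  have h5 : rk k (Set.range α) = ((n + 1) * (r + 1) : ℕ) := by
    have h6 : (AlgebraicIndependent.matroid k (UP k U)).Indep (Set.range α) := hα.coe_range
    have h7 : rk k (Set.range α) = (Set.range α).encard := h6.eRk_eq_encard
    rw [h7, ← Set.image_univ, hα.injective.encard_image, Set.encard_univ, ENat.card_eq_coe_fintype_card,
      Fintype.card_prod, Fintype.card_fin, Fintype.card_fin]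
  have h6 := h4.trans ((rk_union_le _ _).trans (add_le_add h2 h3))
  rw [h5] at h6
  have h7 : (n + 1) * (r + 1) ≤ n + (n + 1) * r := by exact_mod_cast h6
  have h8 : (n + 1) * (r + 1) = (n + 1) * r + (n + 1) := by ring
  omega

end Pool.Agent.K7.H3.ZB
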