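import Pool.Agent.K7.H3.ZB.Down

/-!
# The generic point of a plane section
-/

set_option autoImplicit false

open MvPolynomial

namespace Pool.Agent.K7.H3.ZB

variable {k : Type} [Field k] {K : Type} [Field K] [Algebra k K] {r : ℕ}

section abstract

variable {S Kt : Type} [CommRing S] [Field Kt] [Algebra k Kt] {κ : k →+* S} {ev : S →+* K}
  {π : S →+* Kt}

theorem hom_eval {B σ : Type} [CommRing B] [Algebra k B] {φ : S →+* B}
    (hφ : φ.comp κ = algebraMap k B) (f : σ → S) (G : MvPolynomial σ k) :
    φ (eval₂ κ f G) = aeval (fun j => φ (f j)) G := by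
  rw [hom_eval₂, hφ]
  rfl

variable {ξ : Fin (r + 1) → K} {D : S} {Q : Fin (r + 1) → S} {η : Fin (r + 1) → Kt}

theorem ev_hom (hev : ev.comp κ = algebraMap k K) (hQ : ∀ j, ev (Q j) = ev D * ξ j)
    {G : MvPolynomial (Fin (r + 1)) k} {d : ℕ} (hG : G.IsHomogeneous d) :
    ev (eval₂ κ Q G) = ev D ^ d * aeval ξ G := by
  rw [hom_eval hev, ← aeval_mul_hom hG]
  congr 2
  funext j
  exact hQ j

theorem pi_hom (hπ : π.comp κ = algebraMap k Kt) (hη : ∀ j, π (Q j) = η j)
    (G : MvPolynomial (Fin (r + 1)) k) : aeval η G = π (eval₂ κ Q G) := by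
  rw [hom_eval hπ]
  congr 2
  funext j
  exact (hη j).symm

theorem vanish_hom (hev : ev.comp κ = algebraMap k K) (hπ : π.comp κ = algebraMap k Kt)
    (hker : ∀ F, ev F = 0 → π F = 0) (hQ : ∀ j, ev (Q j) = ev D * ξ j)
    (hη : ∀ j, π (Q j) = η j)
    {G : MvPolynomial (Fin (r + 1)) k} {d : ℕ} (hG : G.IsHomogeneous d) (h0 : aeval ξ G = 0) :
    aeval η G = 0 := by
  rw [pi_hom hπ hη]
  apply hker
  rw [ev_hom hev hQ hG, h0, mul_zero]

theorem lin_hom (hev : ev.comp κ = algebraMap k K) (hπ : π.comp κ = algebraMap k Kt)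
    (hker : ∀ F, ev F = 0 → π F = 0) (hQ : ∀ j, ev (Q j) = ev D * ξ j)
    (hη : ∀ j, π (Q j) = η j)
    (l : Fin (r + 1) → k) (F : S) (hF : ev F = ev D * aeval ξ (linP l)) :
    aeval η (linP l) = π F := by
  rw [pi_hom hπ hη, ← sub_eq_zero, ← map_sub]
  apply hker
  rw [map_sub, hF, ev_hom hev hQ (linP_homogeneous l), pow_one, sub_self]

theorem back_hom (hev : ev.comp κ = algebraMap k K) (hπ : π.comp κ = algebraMap k Kt)
    (hQ : ∀ j, ev (Q j) = ev D * ξ j) (hη : ∀ j, π (Q j) = η j)
    {G : MvPolynomial (Fin (r + 1)) k} {d : ℕ} (hG : G.IsHomogeneous d)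
    (h0 : aeval η G = 0) : ∃ F, π F = 0 ∧ ev F = ev D ^ d * aeval ξ G :=
  ⟨eval₂ κ Q G, by rw [← pi_hom hπ hη, h0], ev_hom hev hQ hG⟩

end abstract

/-- The evaluation of polynomials in three variables. -/
noncomputable def ev3 (k : Type) {K : Type} [Field k] [Field K] [Algebra k K] (w y z : K) :
    Polynomial (Polynomial (Polynomial k)) →+* K :=
  Polynomial.eval₂RingHom (ev2 k w y) z

theorem ev3_apply (w y z : K) (F : Polynomial (Polynomial (Polynomial k))) :
    ev3 k w y z F = F.eval₂ (ev2 k w y) z := rfl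

/-- The constants. -/
noncomputable def c3 (k : Type) [Field k] : k →+* Polynomial (Polynomial (Polynomial k)) :=
  Polynomial.C.comp (Polynomial.C.comp Polynomial.C)

theorem ev3_c3 (w y z : K) : (ev3 k w y z).comp (c3 k) = algebraMap k K := by
  ext c
  simp [ev3, c3, ev2]

/-- Polynomials which vanish for `w = t`. -/
theorem exists_factor {t : k} {F : Polynomial (Polynomial (Polynomial k))}
    (hF : F.map (sp t) = 0) :
    ∃ F' : Polynomial (Polynomial (Polynomial k)),
      F = Polynomial.C (Polynomial.C (Polynomial.X - Polynomial.C t)) * F' := by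
  have h1 : Polynomial.C (Polynomial.C (Polynomial.X - Polynomial.C t)) ∣ F := by
    rw [Polynomial.C_dvd_iff_dvd_coeff]
    intro i
    rw [Polynomial.C_dvd_iff_dvd_coeff]
    intro j
    rw [Polynomial.dvd_iff_isRoot]
    have h2 := congrArg (fun p : Polynomial (Polynomial k) => (p.coeff i).coeff j) hF
    simp only [Polynomial.coeff_map, sp, Polynomial.coe_mapRingHom, Polynomial.coeff_zero] at h2
    exact h2
  exact h1

theorem lift_const {t : k} (q : Polynomial (Polynomial k)) :
    (q.map (Polynomial.mapRingHom Polynomial.C)).map (sp t) = q := by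
  rw [Polynomial.map_map]
  have h1 : (sp t).comp (Polynomial.mapRingHom Polynomial.C) = RingHom.id (Polynomial k) := by
    rw [sp, Polynomial.mapRingHom_comp]
    have h2 : (Polynomial.evalRingHom t).comp Polynomial.C = RingHom.id k := by
      ext c
      simp
    rw [h2, Polynomial.mapRingHom_id]
  rw [h1, Polynomial.map_id]

/-- The function field of a plane section. -/
theorem exists_section_field {P : Polynomial (Polynomial (Polynomial k))} (hP : P.Monic)
    {t : k} (hirr : Irreducible (P.map (sp t))) :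
    ∃ (Kt : Type) (_ : Field Kt) (_ : Algebra k Kt)
      (π : Polynomial (Polynomial (Polynomial k)) →+* Kt), π.comp (c3 k) = algebraMap k Kt ∧
      (∀ F, π F = 0 ↔ P.map (sp t) ∣ F.map (sp t)) ∧
      (∀ x : Kt, ∃ F G, x = π F / π G) ∧ Algebra.trdeg k Kt = 1 ∧
      π (Polynomial.C (Polynomial.C Polynomial.X)) = algebraMap k Kt t := by
  classical
  obtain ⟨Pt, hPt⟩ : ∃ Pt, Pt = P.map (sp t) := ⟨_, rfl⟩
  rw [← hPt] at hirr ⊢
  have hPtm : Pt.Monic := by rw [hPt]; exact hP.map _
  have hPt0 : Pt.natDegree ≠ 0 := by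
    intro h
    have h4 := hPtm.natDegree_eq_zero.1 h
    exact hirr.not_isUnit (by rw [h4]; exact isUnit_one)
  have hprime : Prime Pt := hirr.prime
  have hdom : IsDomain (AdjoinRoot Pt) := AdjoinRoot.isDomain_of_prime hprime
  let Kt := FractionRing (AdjoinRoot Pt)
  obtain ⟨π, hπ⟩ : ∃ π : Polynomial (Polynomial (Polynomial k)) →+* Kt,
      ∀ F, π F = algebraMap (AdjoinRoot Pt) Kt (AdjoinRoot.mk Pt (F.map (sp t))) :=
    ⟨(algebraMap (AdjoinRoot Pt) Kt).comp ((AdjoinRoot.mk Pt).comp
      (Polynomial.mapRingHom (sp t))), fun F => rfl⟩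
  have hπc : π.comp (c3 k) = algebraMap k Kt := by
    ext c
    rw [RingHom.comp_apply, hπ]
    have h4 : (c3 k c).map (sp t) = Polynomial.C (Polynomial.C c) := by
      simp [c3, sp]
    rw [h4]
    rfl
  have hinj : Function.Injective (algebraMap (AdjoinRoot Pt) Kt) :=
    IsFractionRing.injective _ _
  have hπ0 : ∀ F, π F = 0 ↔ Pt ∣ F.map (sp t) := by
    intro F
    rw [hπ, ← AdjoinRoot.mk_eq_zero, ← map_zero (algebraMap (AdjoinRoot Pt) Kt)]
    exact ⟨fun h => hinj h, fun h => congrArg _ h⟩
  have hXt : π (Polynomial.C (Polynomial.C Polynomial.X)) = algebraMap k Kt t := by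
    have h5 : π (Polynomial.C (Polynomial.C Polynomial.X)) = π (c3 k t) := by
      rw [hπ, hπ, c3, Polynomial.map_C]
      simp [sp]
    rw [h5, ← hπc]
    rfl
  refine ⟨Kt, inferInstance, inferInstance, π, hπc, hπ0, ?_, ?_, hXt⟩
  · intro x
    obtain ⟨a, c, -, rfl⟩ := IsFractionRing.div_surjective (A := AdjoinRoot Pt) x
    obtain ⟨q, rfl⟩ := AdjoinRoot.mk_surjective a
    obtain ⟨q', rfl⟩ := AdjoinRoot.mk_surjective c
    refine ⟨q.map (Polynomial.mapRingHom Polynomial.C),
      q'.map (Polynomial.mapRingHom Polynomial.C), ?_⟩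
    rw [hπ, hπ, lift_const, lift_const]
  · -- the transcendence degree
    have hof : Function.Injective (AdjoinRoot.of Pt) := by
      apply AdjoinRoot.of.injective_of_degree_ne_zero
      intro h
      exact hPt0 (Polynomial.natDegree_eq_of_degree_eq_some h)
    have hf1 : FaithfulSMul (Polynomial k) Kt := by
      rw [faithfulSMul_iff_algebraMap_injective]
      exact hinj.comp hof
    have hfin : Module.Finite (Polynomial k) (AdjoinRoot Pt) := hPtm.finite_adjoinRoot
    have halg : Algebra.IsAlgebraic (Polynomial k) (AdjoinRoot Pt) := inferInstance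
    have hf2 : FaithfulSMul (Polynomial k) (AdjoinRoot Pt) := by
      rw [faithfulSMul_iff_algebraMap_injective]
      exact hof
    have halg2 : Algebra.IsAlgebraic (AdjoinRoot Pt) Kt := IsLocalization.isAlgebraic _
      (nonZeroDivisors (AdjoinRoot Pt))
    have halg' : Algebra.IsAlgebraic (Polynomial k) Kt :=
      Algebra.IsAlgebraic.trans (Polynomial k) (AdjoinRoot Pt) Kt
    have h4 := trdeg_add_eq k (Polynomial k) (A := Kt)
    rw [Polynomial.trdeg_of_isDomain, trdeg_eq_zero (R := Polynomial k) (A := Kt), add_zero] at h4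
    exact h4.symm

/-- **The generic point of a plane section.** -/
theorem exists_generic_section {ξ : Fin (r + 1) → K} {w y z : K}
    {l0 l1 l2 le : Fin (r + 1) → k}
    (h0 : aeval ξ (linP l0) = 1) (h1 : aeval ξ (linP l1) = w) (h2 : aeval ξ (linP l2) = y)
    (h3 : aeval ξ (linP le) = z) {P : Polynomial (Polynomial (Polynomial k))} (hP : P.Monic)
    (hPz : P.eval₂ (ev2 k w y) z = 0)
    (hmin : ∀ Q : Polynomial (Polynomial (Polynomial k)), Q.eval₂ (ev2 k w y) z = 0 → P ∣ Q)
    {t : k} (hirr : Irreducible (P.map (sp t))) {D : Polynomial (Polynomial k)}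
    (hD : sp t D ≠ 0) {Q : Fin (r + 1) → Polynomial (Polynomial (Polynomial k))}
    (hQ : ∀ j, (Q j).eval₂ (ev2 k w y) z = ev2 k w y D * ξ j) :
    ∃ (Kt : Type) (_ : Field Kt) (_ : Algebra k Kt) (η : Fin (r + 1) → Kt), η ≠ 0 ∧
      IntermediateField.adjoin k {x | ∃ (_ : Fin 1) (j l : Fin (r + 1)), x = η j / η l} = ⊤ ∧
      Algebra.trdeg k Kt = 1 ∧
      (∀ (G : MvPolynomial (Fin (r + 1)) k) (d : ℕ), G.IsHomogeneous d → aeval ξ G = 0 →
        aeval η G = 0) ∧
      aeval η (linP l1) = algebraMap k Kt t * aeval η (linP l0) ∧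
      ∀ (G : MvPolynomial (Fin (r + 1)) k) (d : ℕ), G.IsHomogeneous d → aeval η G = 0 →
        ∃ F : Polynomial (Polynomial (Polynomial k)), ev2 k w y (D ^ d) * aeval ξ G =
          (w - algebraMap k K t) * F.eval₂ (ev2 k w y) z := by
  classical
  obtain ⟨Kt, iF, iA, π, hπc, hπ0, hdiv, htr, hXt⟩ := exists_section_field hP hirr
  have hPt0 : (P.map (sp t)).natDegree ≠ 0 := by
    intro h
    have h4 := (hP.map (sp t)).natDegree_eq_zero.1 h
    exact hirr.not_isUnit (by rw [h4]; exact isUnit_one)
  have hev := ev3_c3 (k := k) w y z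
  have hker : ∀ F, ev3 k w y z F = 0 → π F = 0 := by
    intro F hF
    rw [hπ0]
    exact Polynomial.map_dvd _ (hmin F hF)
  have hCD : ev3 k w y z (Polynomial.C D) = ev2 k w y D := by
    rw [ev3_apply, Polynomial.eval₂_C]
  have hQ' : ∀ j, ev3 k w y z (Q j) = ev3 k w y z (Polynomial.C D) * ξ j := fun j => by
    rw [hCD]
    exact hQ j
  obtain ⟨η, hη⟩ : ∃ η : Fin (r + 1) → Kt, ∀ j, π (Q j) = η j := ⟨fun j => π (Q j), fun _ => rfl⟩
  have hlin : ∀ (l : Fin (r + 1) → k) (F : Polynomial (Polynomial (Polynomial k))),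
      ev3 k w y z F = ev2 k w y D * aeval ξ (linP l) →
        aeval η (linP l) = π F := by
    intro l F hF
    have hF' : ev3 k w y z F = ev3 k w y z (Polynomial.C D) * aeval ξ (linP l) := by
      rw [hCD]
      exact hF
    have h4 := lin_hom (S := Polynomial (Polynomial (Polynomial k))) (κ := c3 k)
      (ev := ev3 k w y z) (π := π) (D := Polynomial.C D) (Q := Q) hev hπc hker hQ' hη l F hF'
    exact h4
  have hD0 : π (Polynomial.C D) ≠ 0 := by
    rw [Ne, hπ0, Polynomial.map_C]
    intro h
    have h4 := Polynomial.natDegree_le_of_dvd h (Polynomial.C_ne_zero.2 hD)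
    rw [Polynomial.natDegree_C] at h4
    omega
  have hη0 : aeval η (linP l0) = π (Polynomial.C D) := by
    apply hlin
    rw [h0, mul_one, ev3_apply, Polynomial.eval₂_C]
  have hη1 : aeval η (linP l1) = π (Polynomial.C D) * algebraMap k Kt t := by
    rw [hlin l1 (Polynomial.C D * Polynomial.C (Polynomial.C Polynomial.X)), map_mul]
    · rw [hXt]
    · rw [h1, map_mul, ev3_apply, ev3_apply, Polynomial.eval₂_C, Polynomial.eval₂_C]
      simp [ev2]
  have hη2 : aeval η (linP l2) =
      π (Polynomial.C D) * π (Polynomial.C Polynomial.X) := by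
    rw [hlin l2 (Polynomial.C D * Polynomial.C Polynomial.X), map_mul]
    rw [h2, map_mul, ev3_apply, ev3_apply, Polynomial.eval₂_C, Polynomial.eval₂_C]
    simp [ev2]
  have hη3 : aeval η (linP le) = π (Polynomial.C D) * π Polynomial.X := by
    rw [hlin le (Polynomial.C D * Polynomial.X), map_mul]
    rw [h3, map_mul, ev3_apply, ev3_apply, Polynomial.eval₂_C, Polynomial.eval₂_X]
  have hηne : η ≠ 0 := by
    intro h
    apply hD0
    rw [← hη0, h, aeval_linP]
    simp
  obtain ⟨b, hb⟩ := Function.ne_iff.1 hηne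
  have hb' : η b ≠ 0 := hb
  refine ⟨Kt, iF, iA, η, hηne, ?_, htr, ?_, ?_, ?_⟩
  · -- the field is generated by the ratios
    rw [eq_top_iff]
    rintro x -
    obtain ⟨M, hM⟩ : ∃ M : IntermediateField k Kt, M = IntermediateField.adjoin k
      {x | ∃ (_ : Fin 1) (j l : Fin (r + 1)), x = η j / η l} := ⟨_, rfl⟩
    rw [← hM]
    have hrat : ∀ j, η j / η b ∈ M := fun j => by
      rw [hM]
      exact IntermediateField.subset_adjoin _ _ ⟨0, j, b, rfl⟩
    have hlb : ∀ l : Fin (r + 1) → k, aeval η (linP l) / η b ∈ M := by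
      intro l
      rw [aeval_linP, Finset.sum_div]
      refine sum_mem fun j _ => ?_
      rw [mul_div_assoc]
      exact mul_mem (M.algebraMap_mem _) (hrat j)
    have hl : ∀ l : Fin (r + 1) → k,
        aeval η (linP l) / π (Polynomial.C D) ∈ M := by
      intro l
      have h4 := div_mem (hlb l) (hlb l0)
      rwa [div_div_div_cancel_right₀ hb', hη0] at h4
    have hy : π (Polynomial.C Polynomial.X) ∈ M := by
      have h4 := hl l2
      rwa [hη2, mul_div_cancel_left₀ _ hD0] at h4
    have hz : π Polynomial.X ∈ M := by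
      have h4 := hl le
      rwa [hη3, mul_div_cancel_left₀ _ hD0] at h4
    have hw : π (Polynomial.C (Polynomial.C Polynomial.X)) ∈ M := by
      rw [hXt]
      exact M.algebraMap_mem _
    have hall : ∀ F, π F ∈ M := by
      intro F
      induction F using Polynomial.induction_on' with
      | add p q hp hq => rw [map_add]; exact add_mem hp hq
      | monomial l F =>
        induction F using Polynomial.induction_on' with
        | add p q hp hq => rw [map_add, map_add]; exact add_mem hp hq
        | monomial n f =>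
          induction f using Polynomial.induction_on' with
          | add p q hp hq => rw [map_add, map_add, map_add]; exact add_mem hp hq
          | monomial m a =>
            have h4 : Polynomial.monomial l (Polynomial.monomial n (Polynomial.monomial m a)) =
                c3 k a * Polynomial.C (Polynomial.C Polynomial.X) ^ m *
                  Polynomial.C Polynomial.X ^ n * Polynomial.X ^ l := by
              rw [← Polynomial.C_mul_X_pow_eq_monomial, ← Polynomial.C_mul_X_pow_eq_monomial,
                ← Polynomial.C_mul_X_pow_eq_monomial]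
              simp only [map_mul, map_pow]
              rfl
            rw [h4, map_mul, map_mul, map_mul, map_pow, map_pow, map_pow]
            refine mul_mem (mul_mem (mul_mem ?_ (pow_mem hw _)) (pow_mem hy _)) (pow_mem hz _)
            have h5 : π (c3 k a) = algebraMap k Kt a := by
              rw [← hπc]
              rfl
            rw [h5]
            exact M.algebraMap_mem a
    obtain ⟨F, G, rfl⟩ := hdiv x
    exact div_mem (hall F) (hall G)
  · intro G d hG hG0
    have h4 := vanish_hom (S := Polynomial (Polynomial (Polynomial k))) (κ := c3 k)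
      (ev := ev3 k w y z) (π := π) (D := Polynomial.C D) (Q := Q) hev hπc hker hQ' hη hG hG0
    exact h4
  · rw [hη1, hη0, mul_comm]
  · intro G d hG hG0
    obtain ⟨F0, hF0, hF1⟩ := back_hom (S := Polynomial (Polynomial (Polynomial k)))
      (κ := c3 k) (ev := ev3 k w y z) (π := π) (D := Polynomial.C D) (Q := Q) hev hπc hQ' hη hG hG0
    rw [hπ0] at hF0
    obtain ⟨H, hH⟩ := hF0
    obtain ⟨F, hF⟩ := exists_factor (t := t)
      (F := F0 - P * H.map (Polynomial.mapRingHom Polynomial.C)) (by
        rw [Polynomial.map_sub, Polynomial.map_mul, lift_const, hH, sub_self])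
    refine ⟨F, ?_⟩
    have h4 := congrArg (ev3 k w y z) hF
    rw [map_sub (ev3 k w y z), map_mul (ev3 k w y z) P, hF1, hCD, ev3_apply w y z P, hPz,
      zero_mul, sub_zero, map_mul (ev3 k w y z)] at h4
    rw [map_pow, h4]
    congr 1
    rw [ev3_apply, Polynomial.eval₂_C]
    simp [ev2]

end Pool.Agent.K7.H3.ZB
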