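import Mathlib

/-!
# The theorem of Matsusaka and Zariski on pencils
-/

set_option autoImplicit false

open Polynomial

namespace Pool.Agent.K7.H3.ZB

/-- The polynomial which arises from `p` by applying a linear functional to the coefficients. -/
noncomputable def app {k F : Type} [Field k] [Field F] [Algebra k F] (φ : F →ₗ[k] k) (N : ℕ)
    (p : F[X]) : k[X] := ∑ i ∈ Finset.range (N + 1), monomial i (φ (p.coeff i))

theorem eval_app {k F : Type} [Field k] [Field F] [Algebra k F] (φ : F →ₗ[k] k) {N : ℕ}
    {p : F[X]} (hp : p.natDegree ≤ N) (a : k) :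
    (app φ N p).eval a = φ (p.eval (algebraMap k F a)) := by
  rw [app, eval_finsetSum, eval_eq_sum_range' (Nat.lt_succ_of_le hp), map_sum]
  refine Finset.sum_congr rfl fun i _ => ?_
  rw [eval_monomial, ← map_pow, mul_comm (p.coeff i), ← Algebra.smul_def, map_smul, smul_eq_mul,
    mul_comm]

theorem coeff_app {k F : Type} [Field k] [Field F] [Algebra k F] (φ : F →ₗ[k] k) {N : ℕ}
    {p : F[X]} (hp : p.natDegree ≤ N) (i : ℕ) : (app φ N p).coeff i = φ (p.coeff i) := by
  rw [app, finsetSum_coeff]
  simp only [coeff_monomial]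
  by_cases hi : i ∈ Finset.range (N + 1)
  · rw [Finset.sum_ite_eq' (Finset.range (N + 1)) i, if_pos hi]
  · rw [Finset.sum_ite_eq' (Finset.range (N + 1)) i, if_neg hi]
    rw [Finset.mem_range] at hi
    rw [coeff_eq_zero_of_natDegree_lt (by omega), map_zero]

theorem mem_range_of_isAlgebraic {k F : Type} [Field k] [IsAlgClosed k] [Field F] [Algebra k F]
    {x : F} (hx : IsAlgebraic k x) : ∃ b : k, algebraMap k F b = x := by
  have h1 : x ∈ (⊥ : IntermediateField k F) := by
    have h2 : Algebra.IsAlgebraic k (IntermediateField.adjoin k {x}) :=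
      IntermediateField.isAlgebraic_adjoin_simple hx.isIntegral
    have h3 := IntermediateField.eq_bot_of_isAlgClosed_of_isAlgebraic
      (IntermediateField.adjoin k {x})
    rw [← h3]
    exact IntermediateField.mem_adjoin_simple_self k x
  obtain ⟨b, hb⟩ := IntermediateField.mem_bot.1 h1
  exact ⟨b, hb⟩

/-- An element of `F(s)` which is algebraic over `k(s)` is in `k(s)`. -/
theorem mem_of_rational {k F K : Type} [Field k] [IsAlgClosed k] [Field F] [Field K] [Algebra k F]
    [Algebra F K] [Algebra k K] [IsScalarTower k F K] {s β : K} (hs : Transcendental F s)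
    (hβ : β ∈ IntermediateField.adjoin F {s})
    (halg : ∃ Q : k[X][X], Q ≠ 0 ∧ Q.eval₂ (aeval s : k[X] →ₐ[k] K).toRingHom β = 0) :
    ∃ p q : k[X], q ≠ 0 ∧ β * aeval s q = aeval s p := by
  classical
  have : Infinite k := IsAlgClosed.instInfinite
  obtain ⟨p, q, hpq⟩ := (IntermediateField.mem_adjoin_simple_iff F β).1 hβ
  by_cases hq : q = 0
  · refine ⟨0, 1, one_ne_zero, ?_⟩
    rw [hpq, hq, map_zero, div_zero, zero_mul, map_zero]
  have hqs : aeval s q ≠ 0 := fun h0 => hq ((transcendental_iff.1 hs) q h0)
  obtain ⟨Q, hQ0, hQ⟩ := halg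
  -- the polynomial relation
  let W : F[X] := ∑ j ∈ Finset.range (Q.natDegree + 1),
    (Q.coeff j).map (algebraMap k F) * p ^ j * q ^ (Q.natDegree - j)
  have hW : W = 0 := by
    apply (transcendental_iff.1 hs)
    have h1 : aeval s W = aeval s q ^ Q.natDegree *
        Q.eval₂ (aeval s : k[X] →ₐ[k] K).toRingHom β := by
      rw [eval₂_eq_sum_range, Finset.mul_sum, map_sum]
      refine Finset.sum_congr rfl fun j hj => ?_
      have hj' := Nat.lt_succ_iff.1 (Finset.mem_range.1 hj)
      rw [map_mul, map_mul, map_pow, map_pow, aeval_map_algebraMap, hpq, div_pow]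
      have h2 : aeval s q ^ Q.natDegree = aeval s q ^ (Q.natDegree - j) * aeval s q ^ j := by
        rw [← pow_add, Nat.sub_add_cancel hj']
      rw [h2]
      have h3 : aeval s q ^ j ≠ 0 := pow_ne_zero _ hqs
      change aeval s (Q.coeff j) * aeval s p ^ j * aeval s q ^ (Q.natDegree - j) =
        aeval s q ^ (Q.natDegree - j) * aeval s q ^ j * (aeval s (Q.coeff j) *
          (aeval s p ^ j / aeval s q ^ j))
      field_simp
    rw [h1, hQ, mul_zero]
  -- the values
  have hval : ∀ a : k, q.eval (algebraMap k F a) ≠ 0 → Q.map (evalRingHom a) ≠ 0 →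
      ∃ b : k, p.eval (algebraMap k F a) = algebraMap k F b * q.eval (algebraMap k F a) := by
    intro a ha hQa
    have h1 : W.eval (algebraMap k F a) = 0 := by rw [hW, eval_zero]
    have h2 : W.eval (algebraMap k F a) = q.eval (algebraMap k F a) ^ Q.natDegree *
        aeval (p.eval (algebraMap k F a) / q.eval (algebraMap k F a)) (Q.map (evalRingHom a)) := by
      have h4 : aeval (p.eval (algebraMap k F a) / q.eval (algebraMap k F a))
          (Q.map (evalRingHom a)) = Q.eval₂ ((algebraMap k F).comp (evalRingHom a))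
            (p.eval (algebraMap k F a) / q.eval (algebraMap k F a)) := by
        rw [aeval_def, eval₂_map]
      rw [h4, eval₂_eq_sum_range, Finset.mul_sum, eval_finsetSum]
      refine Finset.sum_congr rfl fun j hj => ?_
      have hj' := Nat.lt_succ_iff.1 (Finset.mem_range.1 hj)
      rw [eval_mul, eval_mul, eval_pow, eval_pow, eval_map, eval₂_at_apply, div_pow]
      have h5 : q.eval (algebraMap k F a) ^ Q.natDegree =
          q.eval (algebraMap k F a) ^ (Q.natDegree - j) * q.eval (algebraMap k F a) ^ j := by
        rw [← pow_add, Nat.sub_add_cancel hj']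
      rw [h5]
      have h6 : q.eval (algebraMap k F a) ^ j ≠ 0 := pow_ne_zero _ ha
      change algebraMap k F ((Q.coeff j).eval a) * p.eval (algebraMap k F a) ^ j *
          q.eval (algebraMap k F a) ^ (Q.natDegree - j) =
        q.eval (algebraMap k F a) ^ (Q.natDegree - j) * q.eval (algebraMap k F a) ^ j *
          (algebraMap k F ((Q.coeff j).eval a) *
          (p.eval (algebraMap k F a) ^ j / q.eval (algebraMap k F a) ^ j))
      field_simp
    rw [h2] at h1
    have h3 := (mul_eq_zero.1 h1).resolve_left (pow_ne_zero _ ha)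
    have h4 : IsAlgebraic k (p.eval (algebraMap k F a) / q.eval (algebraMap k F a)) :=
      ⟨_, hQa, h3⟩
    obtain ⟨b, hb⟩ := mem_range_of_isAlgebraic h4
    exact ⟨b, by rw [hb, div_mul_cancel₀ _ ha]⟩
  -- the functional
  obtain ⟨φ, hφ⟩ : ∃ φ : F →ₗ[k] k, φ q.leadingCoeff ≠ 0 := by
    by_contra hcon
    push Not at hcon
    exact hq (leadingCoeff_eq_zero.1 ((Module.forall_dual_apply_eq_zero_iff k _).1 hcon))
  set N := max p.natDegree q.natDegree with hN
  have hpN : p.natDegree ≤ N := le_max_left _ _
  have hqN : q.natDegree ≤ N := le_max_right _ _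
  have hq0 : app φ N q ≠ 0 := by
    intro h0
    apply hφ
    rw [leadingCoeff, ← coeff_app φ hqN, h0, coeff_zero]
  have hinj : Function.Injective (algebraMap k F) := (algebraMap k F).injective
  have hkey : (app φ N p).map (algebraMap k F) * q = (app φ N q).map (algebraMap k F) * p := by
    rw [← sub_eq_zero]
    by_contra hne
    have hfin1 : Set.Finite {a : k | q.eval (algebraMap k F a) = 0} := by
      refine Set.Finite.subset ((q.roots.toFinset.finite_toSet).preimage hinj.injOn) ?_
      intro a ha
      rw [Set.mem_preimage, Finset.mem_coe, Multiset.mem_toFinset, mem_roots hq]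
      exact ha
    have hfin2 : Set.Finite {a : k | Q.map (evalRingHom a) = 0} := by
      have h1 : Q.leadingCoeff ≠ 0 := leadingCoeff_ne_zero.2 hQ0
      refine Set.Finite.subset (Q.leadingCoeff.roots.toFinset.finite_toSet) ?_
      intro a ha
      rw [Finset.mem_coe, Multiset.mem_toFinset, mem_roots h1]
      have h2 := congrArg (fun P : k[X] => P.coeff Q.natDegree) ha
      rw [coeff_map, coeff_zero] at h2
      exact h2
    have hfin3 : Set.Finite {a : k | ((app φ N p).map (algebraMap k F) * q -
        (app φ N q).map (algebraMap k F) * p).eval (algebraMap k F a) = 0} := by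
      refine Set.Finite.subset ((((app φ N p).map (algebraMap k F) * q -
        (app φ N q).map (algebraMap k F) * p).roots.toFinset.finite_toSet).preimage hinj.injOn) ?_
      intro a ha
      rw [Set.mem_preimage, Finset.mem_coe, Multiset.mem_toFinset, mem_roots hne]
      exact ha
    refine Set.infinite_univ (((hfin1.union hfin2).union hfin3).subset ?_)
    intro a _
    by_cases h1 : q.eval (algebraMap k F a) = 0
    · exact Or.inl (Or.inl h1)
    by_cases h2 : Q.map (evalRingHom a) = 0
    · exact Or.inl (Or.inr h2)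
    obtain ⟨b, hb⟩ := hval a h1 h2
    refine Or.inr ?_
    change ((app φ N p).map (algebraMap k F) * q -
        (app φ N q).map (algebraMap k F) * p).eval (algebraMap k F a) = 0
    rw [eval_sub, eval_mul, eval_mul, eval_map, eval_map, eval₂_at_apply, eval₂_at_apply,
      eval_app φ hpN, eval_app φ hqN, hb, ← Algebra.smul_def b, map_smul, smul_eq_mul, map_mul,
      Algebra.smul_def]
    ring
  refine ⟨app φ N p, app φ N q, hq0, ?_⟩
  have h1 := congrArg (aeval s) hkey
  rw [map_mul, map_mul, aeval_map_algebraMap, aeval_map_algebraMap] at h1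
  rw [hpq]
  field_simp
  linear_combination -h1

end Pool.Agent.K7.H3.ZB
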